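import Pool.Agent.Helper83.SETH.Mask

namespace Pool.Agent.Helper83.SETH
open Finset

/-- generating function of the weight -/
theorem sum_weight (n : ℕ) (z : ℝ) :
    ∑ y : X n, z ^ hammingDist y (fun _ => false) = (1 + z) ^ n := by
  have h1 : ∀ y : X n, z ^ hammingDist y (fun _ => false) =
      ∏ i : Fin n, (if y i = true then z else 1) := by
    intro y
    rw [Finset.prod_ite]
    simp only [prod_const, one_pow, mul_one, hammingDist]
    congr 2
    ext i
    simp
  have h2 := Finset.prod_univ_sum (fun _ : Fin n => (univ : Finset Bool))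
    (fun (_ : Fin n) (b : Bool) => if b = true then z else (1 : ℝ))
  simp only [Fintype.univ_bool] at h2
  rw [Finset.sum_congr rfl (fun y _ => h1 y)]
  have h3 : (Fintype.piFinset fun _ : Fin n => ({true, false} : Finset Bool)) = univ := by
    ext y; simp
  rw [h3] at h2
  rw [← h2]
  simp [add_comm]

/-- MODULE B.  Volume of the Hamming ball. -/
theorem ball_card (n q L : ℕ) (hL : 2 ≤ L) (hn : n ≤ 2 ^ L * q) :
    (univ.filter fun y : X n => hammingDist y (fun _ => false) < 2 * L * q).card
      ≤ 2 ^ (3 * L ^ 2 * q) := by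
  have hz : (0 : ℝ) < (1 / 2) ^ L := by positivity
  have h1 : ((univ.filter fun y : X n => hammingDist y (fun _ => false) < 2 * L * q).card : ℝ) ≤
      2 ^ (L * (2 * L * q)) * ∑ y : X n, ((1 / 2 : ℝ) ^ L) ^ hammingDist y (fun _ => false) := by
    rw [Finset.card_filter, Nat.cast_sum, Finset.mul_sum]
    apply Finset.sum_le_sum
    intro y _
    split_ifs with h
    · have h3 : (2 : ℝ) ^ (L * (2 * L * q)) =
          2 ^ (L * (2 * L * q - hammingDist y fun _ => false)) *
            2 ^ (L * hammingDist y fun _ => false) := by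
        rw [← pow_add, ← mul_add]
        congr 2; omega
      rw [h3, ← pow_mul, mul_assoc, ← mul_pow]
      norm_num
      exact one_le_pow₀ (by norm_num)
    · push_cast
      positivity
  rw [sum_weight] at h1
  have h4 : (1 + (1 / 2 : ℝ) ^ L) ^ n ≤ 2 ^ (2 * q) := by
    calc (1 + (1 / 2 : ℝ) ^ L) ^ n ≤ (Real.exp ((1 / 2 : ℝ) ^ L)) ^ n := by
          apply pow_le_pow_left₀ (by positivity)
          rw [add_comm]; exact Real.add_one_le_exp _
      _ = Real.exp (n * (1 / 2 : ℝ) ^ L) := by rw [← Real.exp_nat_mul]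
      _ ≤ Real.exp q := by
          apply Real.exp_le_exp.mpr
          have : (n : ℝ) ≤ 2 ^ L * q := by exact_mod_cast hn
          calc (n : ℝ) * (1 / 2 : ℝ) ^ L ≤ (2 ^ L * q) * (1 / 2 : ℝ) ^ L :=
                mul_le_mul_of_nonneg_right this hz.le
            _ = q := by
                rw [mul_comm ((2 : ℝ) ^ L), mul_assoc, ← mul_pow]; norm_num
      _ = Real.exp 1 ^ q := by rw [← Real.exp_nat_mul]; simp
      _ ≤ 4 ^ q := by
          apply pow_le_pow_left₀ (Real.exp_pos _).le
          have := Real.exp_one_lt_d9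
          linarith
      _ = 2 ^ (2 * q) := by rw [pow_mul]; norm_num
  have h5 : L * (2 * L * q) + 2 * q ≤ 3 * L ^ 2 * q := by
    have : 2 * q ≤ L ^ 2 * q := Nat.mul_le_mul_right _ (by nlinarith)
    nlinarith
  have h6 : ((univ.filter fun y : X n => hammingDist y (fun _ => false) < 2 * L * q).card : ℝ) ≤
      2 ^ (3 * L ^ 2 * q) := by
    calc ((univ.filter fun y : X n => hammingDist y (fun _ => false) < 2 * L * q).card : ℝ)
        ≤ 2 ^ (L * (2 * L * q)) * (1 + (1 / 2 : ℝ) ^ L) ^ n := h1
      _ ≤ 2 ^ (L * (2 * L * q)) * 2 ^ (2 * q) := by gcongr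
      _ = 2 ^ (L * (2 * L * q) + 2 * q) := by rw [pow_add]
      _ ≤ _ := pow_le_pow_right₀ (by norm_num) h5
  exact_mod_cast h6

end Pool.Agent.Helper83.SETH
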