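import Pool.Agent.Helper83.SETH.Mask

/-!
The path argument for decomposable circuits.
-/

namespace Pool.Agent.Helper83.SETH

open Finset

/-- Kinds of gates (in the proof). -/
inductive Kd
  | leaf
  | or (a b : ℕ)
  | and (a b : ℕ)

/-- A circuit (in the proof): variable sets, values, kinds of gates. -/
structure Circ (n : ℕ) where
  S : ℕ → Finset (Fin n)
  g : ℕ → X n → ℕ
  kd : ℕ → Kd
  K : ℕ
  top : ℕ

namespace Circ

variable {n : ℕ} (D : Circ n)

/-- Partial assignments which satisfy the gate `v`. -/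
noncomputable def M (v : ℕ) : Finset (X n) :=
  (univ.filter fun x => 0 < D.g v x).image (mask (D.S v))

def RuleAt (v : ℕ) : Prop :=
  match D.kd v with
  | .leaf => (D.M v).card ≤ D.K
  | .or a b => a < v ∧ b < v ∧ D.S a ⊆ D.S v ∧ D.S b ⊆ D.S v ∧ ∀ x, D.g v x = D.g a x + D.g b x
  | .and a b => a < v ∧ b < v ∧ D.S v = D.S a ∪ D.S b ∧ Disjoint (D.S a) (D.S b) ∧
      (∀ x, D.g v x = D.g a x * D.g b x) ∧ (D.M b).card ≤ (D.M a).card

structure Valid : Prop where
  loc : ∀ v ≤ D.top, ∀ x y : X n, (∀ i ∈ D.S v, x i = y i) → D.g v x = D.g v y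
  rule : ∀ v ≤ D.top, D.RuleAt v

/-- Next gate on the canonical path of `x`. -/
def next (v : ℕ) (x : X n) : ℕ :=
  match D.kd v with
  | .leaf => v
  | .or a b => if 0 < D.g a x then a else b
  | .and a _ => a

noncomputable def ctxOf (v : ℕ) (Z : Finset (X n)) : Finset (X n) := Z.image (mask (D.S v)ᶜ)

open Classical in
/-- The assignments whose canonical (unstopped) path reaches `v`. -/
noncomputable def act (v : ℕ) : Finset (X n) :=
  if v = D.top then univ.filter (fun x => 0 < D.g D.top x)
  else univ.filter (fun x => ∃ p : {p : ℕ // v < p ∧ p ≤ D.top}, x ∈ act p.1 ∧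
      (D.ctxOf p.1 (act p.1)).card ≤ D.K ∧ D.next p.1 x = v ∧ D.K < (D.M v).card)
termination_by D.top - v
decreasing_by all_goals (have := p.2; omega)

noncomputable def ctx (v : ℕ) : Finset (X n) := D.ctxOf v (D.act v)

theorem mem_act_top {x : X n} : x ∈ D.act D.top ↔ 0 < D.g D.top x := by
  rw [act]; simp

theorem mem_act {v : ℕ} (h : v ≠ D.top) {x : X n} :
    x ∈ D.act v ↔ ∃ p, v < p ∧ p ≤ D.top ∧ x ∈ D.act p ∧ (D.ctx p).card ≤ D.K ∧
      D.next p x = v ∧ D.K < (D.M v).card := by
  rw [act, if_neg h]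
  simp only [mem_filter, mem_univ, true_and, Subtype.exists, ctx]
  constructor
  · rintro ⟨p, hp, h1, h2, h3, h4⟩
    exact ⟨p, hp.1, hp.2, h1, h2, h3, h4⟩
  · rintro ⟨p, hp1, hp2, h1, h2, h3, h4⟩
    exact ⟨p, ⟨hp1, hp2⟩, h1, h2, h3, h4⟩

theorem act_le {v : ℕ} {x : X n} (h : x ∈ D.act v) : v ≤ D.top := by
  by_cases hv : v = D.top
  · exact hv.le
  · obtain ⟨p, h1, h2, _⟩ := (D.mem_act hv).mp h
    omega

theorem act_K {v : ℕ} {x : X n} (h : x ∈ D.act v) (hv : v ≠ D.top) : D.K < (D.M v).card := by
  obtain ⟨p, _, _, _, _, _, h6⟩ := (D.mem_act hv).mp h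
  exact h6

variable {D}

/-- properties of a step of a path -/
theorem step_prop (hV : D.Valid) {p : ℕ} (hp : p ≤ D.top) {x : X n} (hx : 0 < D.g p x)
    (hne : D.next p x < p) :
    0 < D.g (D.next p x) x ∧ D.S (D.next p x) ⊆ D.S p := by
  have hr := hV.rule p hp
  unfold RuleAt at hr
  unfold next at hne ⊢
  rcases hk : D.kd p with _ | ⟨a, b⟩ | ⟨a, b⟩
  · rw [hk] at hne; simp at hne
  · rw [hk] at hr hne
    simp only at hr hne ⊢
    obtain ⟨_, _, h3, h4, h5⟩ := hr
    split_ifs with h
    · exact ⟨h, h3⟩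
    · refine ⟨?_, h4⟩
      have := h5 x; omega
  · rw [hk] at hr hne
    simp only at hr hne ⊢
    obtain ⟨_, _, h3, h4, h5, _⟩ := hr
    refine ⟨?_, by rw [h3]; exact subset_union_left⟩
    rw [h5 x] at hx
    exact pos_of_mul_pos_left hx (Nat.zero_le _)

theorem act_pos (hV : D.Valid) : ∀ (d v : ℕ), D.top - v = d → ∀ x ∈ D.act v, 0 < D.g v x := by
  intro d
  induction d using Nat.strong_induction_on with
  | _ d ih =>
    intro v hd x hx
    by_cases hv : v = D.top
    · subst hv
      exact D.mem_act_top.mp hx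
    · obtain ⟨p, h1, h2, h3, h4, h5, h6⟩ := (D.mem_act hv).mp hx
      have hpos := ih (D.top - p) (by omega) p rfl x h3
      have := step_prop hV h2 hpos (by rw [h5]; exact h1)
      rw [h5] at this
      exact this.1

theorem act_pos' (hV : D.Valid) {v : ℕ} {x : X n} (hx : x ∈ D.act v) : 0 < D.g v x :=
  act_pos hV _ v rfl x hx

variable (D)

open Classical in
/-- The large items reachable for `x` by unstopped rule paths from `v`. -/
noncomputable def L (w : ℕ) (x : X n) (v : ℕ) : Finset (ℕ × ℕ) :=
  if D.K < (D.ctx v).card then (if 0 < D.g v x then {(v, v)} else ∅)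
  else match D.kd v with
    | .leaf => ∅
    | .or a b =>
      (if _h : a < v ∧ D.K < (D.M a).card then L w x a
        else if 0 < D.g a x ∧ w < (D.S v \ D.S a).card then {(v, a)} else ∅) ∪
      (if _h : b < v ∧ D.K < (D.M b).card then L w x b
        else if 0 < D.g b x ∧ w < (D.S v \ D.S b).card then {(v, b)} else ∅)
    | .and a b => if _h : a < v ∧ D.K < (D.M a).card ∧ 0 < D.g b x then L w x a else ∅
termination_by v
decreasing_by
  · exact _h.1
  · exact _h.1
  · exact _h.1

variable {D}

theorem L_card (hV : D.Valid) (w : ℕ) (x : X n) :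
    ∀ v ≤ D.top, (D.L w x v).card ≤ D.g v x := by
  intro v
  induction v using Nat.strong_induction_on with
  | _ v ih =>
    intro hv
    have hr := hV.rule v hv
    unfold RuleAt at hr
    rw [L]
    by_cases hbig : D.K < (D.ctx v).card
    · rw [if_pos hbig]
      split_ifs with h
      · simp; omega
      · simp
    · rw [if_neg hbig]
      rcases hk : D.kd v with _ | ⟨a, b⟩ | ⟨a, b⟩
      · simp
      · rw [hk] at hr
        simp only at hr ⊢
        obtain ⟨h1, h2, h3, h4, h5⟩ := hr
        rw [h5 x]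
        refine (card_union_le _ _).trans (add_le_add ?_ ?_)
        · split_ifs with h h'
          · exact ih a h1 (by omega)
          · simp; omega
          · simp
        · split_ifs with h h'
          · exact ih b h2 (by omega)
          · simp; omega
          · simp
      · rw [hk] at hr
        simp only at hr ⊢
        obtain ⟨h1, h2, h3, h4, h5, h6⟩ := hr
        split_ifs with h
        · rw [h5 x]
          calc (D.L w x a).card ≤ D.g a x := ih a h1 (by omega)
            _ ≤ D.g a x * D.g b x := Nat.le_mul_of_pos_right _ h.2.2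
        · simp

theorem L_sub (hV : D.Valid) (w : ℕ) (x : X n) : ∀ (d v : ℕ), D.top - v = d → ∀ x' ∈ D.act v,
    (∀ i ∉ D.S v, x i = x' i) → 0 < D.g v x → D.L w x v ⊆ D.L w x D.top := by
  intro d
  induction d using Nat.strong_induction_on with
  | _ d ih =>
    intro v hd x' hx' hag hpos
    by_cases hv : v = D.top
    · subst hv; exact Finset.Subset.refl _
    · obtain ⟨p, h1, h2, h3, h4, h5, h6⟩ := (D.mem_act hv).mp hx'
      have hpos' : 0 < D.g p x' := act_pos' hV h3
      have hst := step_prop hV h2 hpos' (by rw [h5]; exact h1)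
      rw [h5] at hst
      have hag' : ∀ i ∉ D.S p, x i = x' i := fun i hi => hag i (fun h => hi (hst.2 h))
      have hbig : ¬ D.K < (D.ctx p).card := by omega
      have hr := hV.rule p h2
      unfold RuleAt at hr
      unfold next at h5
      rcases hk : D.kd p with _ | ⟨a, b⟩ | ⟨a, b⟩
      · rw [hk] at h5; simp only at h5; omega
      · rw [hk] at hr h5
        simp only at hr h5
        obtain ⟨r1, r2, r3, r4, r5⟩ := hr
        have hpp : 0 < D.g p x := by
          rw [r5 x]
          split_ifs at h5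
          · rw [h5]; omega
          · rw [h5]; omega
        refine Finset.Subset.trans ?_ (ih (D.top - p) (by omega) p rfl x' h3 hag' hpp)
        rw [L.eq_def D w x p, if_neg hbig, hk]
        simp only
        split_ifs at h5 with hh
        · subst h5
          rw [dif_pos ⟨r1, h6⟩]
          exact subset_union_left
        · subst h5
          rw [dif_pos (c := b < p ∧ D.K < (D.M b).card) ⟨r2, h6⟩]
          exact subset_union_right
      · rw [hk] at hr h5
        simp only at hr h5
        obtain ⟨r1, r2, r3, r4, r5, r6⟩ := hr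
        subst h5
        have hb' : 0 < D.g b x' := by
          rw [r5 x'] at hpos'
          exact pos_of_mul_pos_right hpos' (Nat.zero_le _)
        have hb : 0 < D.g b x := by
          rw [hV.loc b (by omega) x x' ?_]
          · exact hb'
          · intro i hi
            apply hag
            exact fun h => (Finset.disjoint_left.mp r4) h hi
        have hpp : 0 < D.g p x := by
          rw [r5 x]; exact Nat.mul_pos hpos hb
        refine Finset.Subset.trans ?_ (ih (D.top - p) (by omega) p rfl x' h3 hag' hpp)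
        rw [L.eq_def D w x p, if_neg hbig, hk]
        simp only
        rw [dif_pos ⟨r1, h6, hb⟩]


theorem mem_M_iff (hV : D.Valid) {v : ℕ} (hv : v ≤ D.top) {x : X n} :
    mask (D.S v) x ∈ D.M v ↔ 0 < D.g v x := by
  unfold M
  rw [mem_image]
  constructor
  · rintro ⟨y, hy, hyx⟩
    rw [mask_eq_mask] at hyx
    rw [mem_filter] at hy
    rw [← hV.loc v hv y x hyx]
    exact hy.2
  · intro h
    exact ⟨x, by simp [h], rfl⟩

theorem mem_ctx {v : ℕ} {x : X n} :
    mask (D.S v)ᶜ x ∈ D.ctx v ↔ ∃ x' ∈ D.act v, ∀ i ∉ D.S v, x i = x' i := by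
  unfold ctx ctxOf
  rw [mem_image]
  constructor
  · rintro ⟨y, hy, hyx⟩
    rw [mask_eq_mask] at hyx
    exact ⟨y, hy, fun i hi => (hyx i (by simp [hi])).symm⟩
  · rintro ⟨y, hy, hyx⟩
    refine ⟨y, hy, ?_⟩
    rw [mask_eq_mask]
    intro i hi
    exact (hyx i (by simpa using hi)).symm

theorem ctx_masked {v : ℕ} : ∀ c ∈ D.ctx v, mask (D.S v)ᶜ c = c := by
  intro c hc
  unfold ctx ctxOf at hc
  obtain ⟨y, _, rfl⟩ := mem_image.mp hc
  exact mask_idem _ _

theorem M_masked {v : ℕ} : ∀ c ∈ D.M v, mask (D.S v) c = c := by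
  intro c hc
  unfold M at hc
  obtain ⟨y, _, rfl⟩ := mem_image.mp hc
  exact mask_idem _ _

variable (D)

/-- `a` is a child of the OR gate `v`. -/
def OrChild (v a : ℕ) : Prop := ∃ b, D.kd v = .or a b ∨ D.kd v = .or b a

/-- Large items. -/
def IsItem (w : ℕ) (e : ℕ × ℕ) : Prop :=
  (e.2 = e.1 ∧ D.K < (D.ctx e.1).card) ∨
  ((D.ctx e.1).card ≤ D.K ∧ D.OrChild e.1 e.2 ∧ (D.M e.2).card ≤ D.K ∧
    w < (D.S e.1 \ D.S e.2).card)

/-- The rectangle of an item. -/
def Rect (e : ℕ × ℕ) (x : X n) : Prop := 0 < D.g e.2 x ∧ mask (D.S e.1)ᶜ x ∈ D.ctx e.1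

open Classical in
noncomputable def items (w : ℕ) : Finset (ℕ × ℕ) :=
  (range (D.top + 1) ×ˢ range (D.top + 1)).filter (D.IsItem w)

variable {D}

/-- Every large item whose rectangle contains `x` is reachable. -/
theorem item_mem_L (hV : D.Valid) {w : ℕ} {x : X n} {e : ℕ × ℕ} (he : D.IsItem w e)
    (hx : D.Rect e x) : e ∈ D.L w x D.top := by
  obtain ⟨v, a⟩ := e
  obtain ⟨hx1, hx2⟩ := hx
  simp only at hx1 hx2
  obtain ⟨x', hx', hag⟩ := mem_ctx.mp hx2
  have hvt := D.act_le hx'
  rcases he with ⟨h1, h2⟩ | ⟨h1, h2, h3, h4⟩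
  · simp only at h1 h2
    subst h1
    apply L_sub hV w x _ a rfl x' hx' hag hx1
    rw [L, if_pos h2, if_pos hx1]
    simp
  · simp only at h1 h2 h3 h4
    have hr := hV.rule v hvt
    unfold RuleAt at hr
    obtain ⟨b, hb | hb⟩ := h2
    · rw [hb] at hr
      simp only at hr
      obtain ⟨r1, r2, r3, r4, r5⟩ := hr
      have hpv : 0 < D.g v x := by rw [r5 x]; omega
      apply L_sub hV w x _ v rfl x' hx' hag hpv
      rw [L, if_neg (by omega), hb]
      simp only
      apply mem_union_left
      rw [dif_neg (by omega), if_pos ⟨hx1, h4⟩]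
      simp
    · rw [hb] at hr
      simp only at hr
      obtain ⟨r1, r2, r3, r4, r5⟩ := hr
      have hpv : 0 < D.g v x := by rw [r5 x]; omega
      apply L_sub hV w x _ v rfl x' hx' hag hpv
      rw [L, if_neg (by omega), hb]
      simp only
      apply mem_union_right
      rw [dif_neg (by omega), if_pos ⟨hx1, h4⟩]
      simp

/-- Every large item is a large rectangle. -/
theorem item_corr (hV : D.Valid) {A : Finset (X n)} {κ N : ℕ} (hK : D.K = 2 ^ κ)
    (hA : Corr A (2 ^ κ) N) (htop : D.K < (D.M D.top).card) {e : ℕ × ℕ}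
    (he : D.IsItem (2 * κ + 1) e) [DecidablePred (D.Rect e)] :
    N * (univ.filter fun x : X n => D.Rect e x ∧ x ∈ A).card ≤
      (univ.filter fun x : X n => D.Rect e x ∧ x ∉ A).card := by
  obtain ⟨v, a⟩ := e
  rcases (D.ctx v).eq_empty_or_nonempty with hemp | ⟨c, hc⟩
  · have h0 : ∀ x, ¬ D.Rect (v, a) x := by
      intro x hx
      have := hx.2
      simp [hemp] at this
    have : (univ.filter fun x : X n => D.Rect (v, a) x ∧ x ∈ A) = ∅ := by
      apply filter_false_of_mem
      intro x _ hx
      exact h0 x hx.1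
    rw [this]; simp
  · have hc' := hc
    unfold ctx ctxOf at hc'
    obtain ⟨y, hy, _⟩ := mem_image.mp hc'
    have hvt := D.act_le hy
    rcases he with ⟨h1, h2⟩ | ⟨h1, h2, h3, h4⟩
    · simp only at h1 h2
      subst h1
      have hM : D.K < (D.M a).card := by
        by_cases ht : a = D.top
        · rw [ht]; exact htop
        · exact D.act_K hy ht
      have key : ∀ x : X n, D.Rect (a, a) x ↔ (mask (D.S a) x ∈ D.M a ∧ mask (D.S a)ᶜ x ∈ D.ctx a) := by
        intro x
        rw [mem_M_iff hV hvt]
        rfl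
      rw [hK] at hM h2
      have := hA (D.S a) (D.M a) (D.ctx a) M_masked ctx_masked hM h2
      simpa only [key] using this
    · simp only at h1 h2 h3 h4
      have hr := hV.rule v hvt
      unfold RuleAt at hr
      have hsub : D.S a ⊆ D.S v ∧ a ≤ D.top := by
        obtain ⟨b, hb | hb⟩ := h2 <;> rw [hb] at hr <;> simp only at hr
        · exact ⟨hr.2.2.1, by omega⟩
        · exact ⟨hr.2.2.2.1, by omega⟩
      have key : ∀ x : X n, D.Rect (v, a) x ↔ (mask (D.S v)ᶜ x ∈ D.ctx v ∧ mask (D.S a) x ∈ D.M a) := by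
        intro x
        rw [mem_M_iff hV hsub.2]
        exact and_comm
      have := slack_rect hA hsub.1 (D.ctx v) (D.M a) ctx_masked M_masked h4
      simpa only [key] using this

variable (D)

open Classical in
/-- Assignments stopped at the gate `v` with few possibilities. -/
noncomputable def few (κ v : ℕ) : Finset (X n) :=
  if (D.ctx v).card ≤ D.K then
    match D.kd v with
    | .leaf => ∅
    | .or a b =>
      (if (D.M a).card ≤ D.K ∧ (D.S v \ D.S a).card ≤ 2 * κ + 1 then
        (univ.filter fun x : X n => mask (D.S v)ᶜ x ∈ D.ctx v ∧ mask (D.S a) x ∈ D.M a) else ∅) ∪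
      (if (D.M b).card ≤ D.K ∧ (D.S v \ D.S b).card ≤ 2 * κ + 1 then
        (univ.filter fun x : X n => mask (D.S v)ᶜ x ∈ D.ctx v ∧ mask (D.S b) x ∈ D.M b) else ∅)
    | .and a b =>
      if (D.M a).card ≤ D.K ∧ (D.M b).card ≤ D.K then
      (univ.filter fun x : X n => mask (D.S a ∪ D.S b)ᶜ x ∈ D.ctx v ∧ mask (D.S a) x ∈ D.M a ∧
        mask (D.S b) x ∈ D.M b) else ∅
  else ∅

variable {D}

theorem few_card {κ : ℕ} (hK : D.K = 2 ^ κ) (v : ℕ) : (D.few κ v).card ≤ 2 ^ (4 * κ + 2) := by
  have hbase : 2 ^ κ * 2 ^ κ * 2 ^ (2 * κ + 1) + 2 ^ κ * 2 ^ κ * 2 ^ (2 * κ + 1) =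
      2 ^ (4 * κ + 2) := by
    rw [← pow_add, ← pow_add, ← two_mul, ← pow_succ']
    congr 1; ring
  have hor : ∀ a, (D.ctx v).card ≤ D.K → (if (D.M a).card ≤ D.K ∧ (D.S v \ D.S a).card ≤ 2 * κ + 1 then
        (univ.filter fun x : X n => mask (D.S v)ᶜ x ∈ D.ctx v ∧ mask (D.S a) x ∈ D.M a)
        else ∅ : Finset (X n)).card ≤ 2 ^ κ * 2 ^ κ * 2 ^ (2 * κ + 1) := by
    intro a hc
    split_ifs with h
    · refine (slack_count _ _).trans ?_
      rw [hK] at hc h
      exact Nat.mul_le_mul (Nat.mul_le_mul hc h.1) (Nat.pow_le_pow_right (by norm_num) h.2)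
    · simp
  unfold few
  split_ifs with hc
  · rcases hk : D.kd v with _ | ⟨a, b⟩ | ⟨a, b⟩
    · simp
    · simp only
      refine (card_union_le _ _).trans ?_
      rw [← hbase]
      exact add_le_add (hor a hc) (hor b hc)
    · simp only
      split_ifs with h
      · refine (and_count _ _ _).trans ?_
        rw [hK] at hc h
        calc (D.ctx v).card * ((D.M a).card * (D.M b).card) ≤ 2 ^ κ * (2 ^ κ * 2 ^ κ) :=
              Nat.mul_le_mul hc (Nat.mul_le_mul h.1 h.2)
          _ = 2 ^ (3 * κ) := by rw [← pow_add, ← pow_add]; congr 1; ring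
          _ ≤ 2 ^ (4 * κ + 2) := Nat.pow_le_pow_right (by norm_num) (by omega)
      · simp
  · simp

/-- Coverage. -/
theorem cover (hV : D.Valid) {κ : ℕ} (htop : D.K < (D.M D.top).card) {x : X n}
    (hx : 0 < D.g D.top x) :
    (∃ v ≤ D.top, x ∈ D.few κ v) ∨ ∃ e ∈ D.items (2 * κ + 1), D.Rect e x := by
  classical
  -- the last gate of the canonical path
  have hex : ∃ v, x ∈ D.act v := ⟨D.top, D.mem_act_top.mpr hx⟩
  set v := Nat.find hex with hv
  have hxv : x ∈ D.act v := Nat.find_spec hex
  have hmin : ∀ u < v, x ∉ D.act u := fun u hu => Nat.find_min hex hu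
  have hvt := D.act_le hxv
  have hpos := act_pos' hV hxv
  have hctx : mask (D.S v)ᶜ x ∈ D.ctx v := mem_ctx.mpr ⟨x, hxv, fun _ _ => rfl⟩
  have hMv : D.K < (D.M v).card := by
    by_cases ht : v = D.top
    · rw [ht]; exact htop
    · exact D.act_K hxv ht
  by_cases hbig : D.K < (D.ctx v).card
  · right
    refine ⟨(v, v), ?_, hpos, hctx⟩
    unfold items
    rw [mem_filter, mem_product]
    exact ⟨⟨by simp; omega, by simp; omega⟩, Or.inl ⟨rfl, hbig⟩⟩
  · have hle : (D.ctx v).card ≤ D.K := by omega
    have hnext : D.next v x < v → (D.M (D.next v x)).card ≤ D.K := by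
      intro hlt
      by_contra hcon
      apply hmin _ hlt
      rw [D.mem_act (by omega)]
      exact ⟨v, hlt, hvt, hxv, hle, rfl, by omega⟩
    have hr := hV.rule v hvt
    unfold RuleAt at hr
    unfold next at hnext
    rcases hk : D.kd v with _ | ⟨a, b⟩ | ⟨a, b⟩
    · rw [hk] at hr; simp only at hr; omega
    · rw [hk] at hr hnext
      simp only at hr hnext
      obtain ⟨r1, r2, r3, r4, r5⟩ := hr
      -- the child
      by_cases ha : 0 < D.g a x
      · rw [if_pos ha] at hnext
        have hMa := hnext r1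
        by_cases hs : (D.S v \ D.S a).card ≤ 2 * κ + 1
        · left
          refine ⟨v, hvt, ?_⟩
          unfold few
          rw [if_pos hle, hk]
          simp only
          apply mem_union_left
          rw [if_pos ⟨hMa, hs⟩]
          simp only [mem_filter, mem_univ, true_and]
          exact ⟨hctx, (mem_M_iff hV (by omega)).mpr ha⟩
        · right
          refine ⟨(v, a), ?_, ha, hctx⟩
          unfold items
          rw [mem_filter, mem_product]
          exact ⟨⟨by simp; omega, by simp; omega⟩, Or.inr ⟨hle, ⟨b, Or.inl hk⟩, hMa, by simpa using hs⟩⟩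
      · rw [if_neg ha] at hnext
        have hMb := hnext r2
        have hb : 0 < D.g b x := by have := r5 x; omega
        by_cases hs : (D.S v \ D.S b).card ≤ 2 * κ + 1
        · left
          refine ⟨v, hvt, ?_⟩
          unfold few
          rw [if_pos hle, hk]
          simp only
          apply mem_union_right
          rw [if_pos ⟨hMb, hs⟩]
          simp only [mem_filter, mem_univ, true_and]
          exact ⟨hctx, (mem_M_iff hV (by omega)).mpr hb⟩
        · right
          refine ⟨(v, b), ?_, hb, hctx⟩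
          unfold items
          rw [mem_filter, mem_product]
          exact ⟨⟨by simp; omega, by simp; omega⟩, Or.inr ⟨hle, ⟨a, Or.inr hk⟩, hMb, by simpa using hs⟩⟩
    · rw [hk] at hr hnext
      simp only at hr hnext
      obtain ⟨r1, r2, r3, r4, r5, r6⟩ := hr
      have hMa := hnext r1
      left
      refine ⟨v, hvt, ?_⟩
      unfold few
      rw [if_pos hle, hk]
      simp only
      rw [if_pos ⟨hMa, r6.trans hMa⟩]
      simp only [mem_filter, mem_univ, true_and]
      rw [r5 x] at hpos
      rw [r3] at hctx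
      exact ⟨hctx, (mem_M_iff hV (by omega)).mpr (pos_of_mul_pos_left hpos (Nat.zero_le _)),
        (mem_M_iff hV (by omega)).mpr (pos_of_mul_pos_right hpos (Nat.zero_le _))⟩

theorem bound_big (hV : D.Valid) {A : Finset (X n)} {κ N : ℕ} (hK : D.K = 2 ^ κ)
    (hA : Corr A (2 ^ κ) N) (htop : D.K < (D.M D.top).card) :
    N * (univ.filter fun x : X n => 0 < D.g D.top x ∧ x ∈ A).card ≤
      N * (2 ^ (4 * κ + 2) * (D.top + 1)) +
        ∑ x ∈ univ.filter (fun x : X n => x ∉ A), D.g D.top x := by
  classical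
  have h1 : (univ.filter fun x : X n => 0 < D.g D.top x ∧ x ∈ A) ⊆
      (range (D.top + 1)).biUnion (D.few κ) ∪
      (D.items (2 * κ + 1)).biUnion (fun e => univ.filter fun x : X n => D.Rect e x ∧ x ∈ A) := by
    intro x hx
    simp only [mem_filter, mem_univ, true_and] at hx
    rw [mem_union, mem_biUnion, mem_biUnion]
    rcases cover hV (κ := κ) htop hx.1 with ⟨v, hv, hv'⟩ | ⟨e, he, he'⟩
    · left; exact ⟨v, by simp; omega, hv'⟩
    · right; exact ⟨e, he, by simp [he', hx.2]⟩
  have h2 := Finset.card_le_card h1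
  have h3 : ((range (D.top + 1)).biUnion (D.few κ)).card ≤ 2 ^ (4 * κ + 2) * (D.top + 1) := by
    refine card_biUnion_le.trans ?_
    refine (Finset.sum_le_card_nsmul _ _ _ (fun v _ => few_card hK v)).trans ?_
    simp [mul_comm]
  have h4 : ((D.items (2 * κ + 1)).biUnion
      (fun e => univ.filter fun x : X n => D.Rect e x ∧ x ∈ A)).card ≤
      ∑ e ∈ D.items (2 * κ + 1), (univ.filter fun x : X n => D.Rect e x ∧ x ∈ A).card :=
    card_biUnion_le
  have h5 : N * ∑ e ∈ D.items (2 * κ + 1), (univ.filter fun x : X n => D.Rect e x ∧ x ∈ A).card ≤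
      ∑ e ∈ D.items (2 * κ + 1), (univ.filter fun x : X n => D.Rect e x ∧ x ∉ A).card := by
    rw [Finset.mul_sum]
    apply Finset.sum_le_sum
    intro e he
    exact item_corr hV hK hA htop (mem_filter.mp he).2
  have h6 : ∑ e ∈ D.items (2 * κ + 1), (univ.filter fun x : X n => D.Rect e x ∧ x ∉ A).card ≤
      ∑ x ∈ univ.filter (fun x : X n => x ∉ A), D.g D.top x := by
    have : ∀ e, (univ.filter fun x : X n => D.Rect e x ∧ x ∉ A).card =
        ∑ x ∈ univ.filter (fun x : X n => x ∉ A), if D.Rect e x then 1 else 0 := by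
      intro e
      rw [← Finset.card_filter, Finset.filter_filter]
      congr 1
      ext x
      simp only [mem_filter, mem_univ, true_and]
      tauto
    rw [Finset.sum_congr rfl (fun e _ => this e), Finset.sum_comm]
    apply Finset.sum_le_sum
    intro x _
    rw [← Finset.card_filter]
    refine le_trans (Finset.card_le_card ?_) (L_card hV (2 * κ + 1) x D.top le_rfl)
    intro e he
    rw [mem_filter] at he
    exact item_mem_L hV (mem_filter.mp he.1).2 he.2
  calc N * (univ.filter fun x : X n => 0 < D.g D.top x ∧ x ∈ A).card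
      ≤ N * (2 ^ (4 * κ + 2) * (D.top + 1) +
          ∑ e ∈ D.items (2 * κ + 1), (univ.filter fun x : X n => D.Rect e x ∧ x ∈ A).card) := by
        apply Nat.mul_le_mul_left
        exact (h2.trans (card_union_le _ _)).trans (add_le_add h3 h4)
    _ = N * (2 ^ (4 * κ + 2) * (D.top + 1)) +
          N * ∑ e ∈ D.items (2 * κ + 1), (univ.filter fun x : X n => D.Rect e x ∧ x ∈ A).card := by
        ring
    _ ≤ _ := Nat.add_le_add_left (h5.trans h6) _

/-- **Main circuit theorem.** -/
theorem bound (hV : D.Valid) {A : Finset (X n)} {κ N : ℕ} (hK : D.K = 2 ^ κ)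
    (hA : Corr A (2 ^ κ) N) :
    N * (univ.filter fun x : X n => 0 < D.g D.top x ∧ x ∈ A).card ≤
      N * (2 ^ (4 * κ + 2) * (D.top + 1)) +
        ∑ x ∈ univ.filter (fun x : X n => x ∉ A), D.g D.top x := by
  classical
  by_cases htop : D.K < (D.M D.top).card
  · exact bound_big hV hK hA htop
  · have hM : (D.M D.top).card ≤ 2 ^ κ := by rw [← hK]; omega
    have key : ∀ x : X n, 0 < D.g D.top x ↔
        (mask (univ : Finset (Fin n))ᶜ x ∈ ({fun _ => false} : Finset (X n)) ∧
          mask (D.S D.top) x ∈ D.M D.top) := by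
      intro x
      rw [mem_M_iff hV le_rfl]
      have : mask (univ : Finset (Fin n))ᶜ x = fun _ => false := by
        funext i; simp [mask]
      rw [this]
      simp
    by_cases hs : ((univ : Finset (Fin n)) \ D.S D.top).card ≤ 2 * κ + 1
    · have h1 := slack_count (P := D.S D.top) (Q := univ) ({fun _ => false} : Finset (X n)) (D.M D.top)
      have h2 : (univ.filter fun x : X n => 0 < D.g D.top x ∧ x ∈ A).card ≤
          2 ^ (4 * κ + 2) * (D.top + 1) := by
        calc (univ.filter fun x : X n => 0 < D.g D.top x ∧ x ∈ A).card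
            ≤ (univ.filter fun x : X n => mask (univ : Finset (Fin n))ᶜ x ∈
                ({fun _ => false} : Finset (X n)) ∧ mask (D.S D.top) x ∈ D.M D.top).card := by
              apply Finset.card_le_card
              intro x hx
              simp only [mem_filter, mem_univ, true_and] at hx
              simp only [mem_filter, mem_univ, true_and]
              exact (key x).mp hx.1
          _ ≤ _ := h1
          _ ≤ 1 * 2 ^ κ * 2 ^ (2 * κ + 1) := by
              rw [card_singleton]
              exact Nat.mul_le_mul (Nat.mul_le_mul le_rfl hM)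
                (Nat.pow_le_pow_right (by norm_num) hs)
          _ = 2 ^ (3 * κ + 1) := by rw [one_mul, ← pow_add]; congr 1; ring
          _ ≤ 2 ^ (4 * κ + 2) := Nat.pow_le_pow_right (by norm_num) (by omega)
          _ ≤ _ := Nat.le_mul_of_pos_right _ (by omega)
      exact (Nat.mul_le_mul_left _ h2).trans (Nat.le_add_right _ _)
    · have h1 := slack_rect hA (P := D.S D.top) (Q := univ) (subset_univ _)
        ({fun _ => false} : Finset (X n)) (D.M D.top) (by
          intro c hc
          rw [mem_singleton] at hc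
          subst hc
          funext i; simp [mask]) M_masked (by omega)
      simp only [← key] at h1
      refine h1.trans ?_
      refine le_trans ?_ (Nat.le_add_left _ _)
      rw [Finset.card_filter, Finset.sum_filter]
      apply Finset.sum_le_sum
      intro x _
      by_cases h2 : x ∈ A
      · simp [h2]
      · by_cases h3 : 0 < D.g D.top x
        · simp only [h2, h3, not_false_eq_true, and_self, if_true]
          exact h3
        · simp [h3]

end Circ

end Pool.Agent.Helper83.SETH
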