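import Pool.Agent.Helper83.SETH.Statement

/-!
Definitions for the strong exponential lower bound for decomposable circuits (MP_4ed1f9_lc).
-/

namespace Pool.Agent.Helper83.SETH

open Finset

/-- Boolean assignments of `n` variables. -/
abbrev X (n : ℕ) := Fin n → Bool

open Classical in
/-- The models of a formula. -/
noncomputable def models {m k n : ℕ} (φ : Fin m → Clause k n) : Finset (X n) :=
  univ.filter (Sat φ)

/-- Restriction to the variables in `P` (the other variables are set to `false`). -/
def mask {n : ℕ} (P : Finset (Fin n)) (x : X n) : X n := fun i => if i ∈ P then x i else false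

/-- In every combinatorial rectangle (over any partition `P`, `Pᶜ` of the variables) with more than
`K` rows and more than `K` columns, points outside `A` are `N` times more frequent than points of
`A`. -/
def Corr {n : ℕ} (A : Finset (X n)) (K N : ℕ) : Prop :=
  ∀ (P : Finset (Fin n)) (U V : Finset (X n)),
    (∀ u ∈ U, mask P u = u) → (∀ v ∈ V, mask Pᶜ v = v) → K < U.card → K < V.card →
    N * (univ.filter fun x : X n => (mask P x ∈ U ∧ mask Pᶜ x ∈ V) ∧ x ∈ A).card ≤
      (univ.filter fun x : X n => (mask P x ∈ U ∧ mask Pᶜ x ∈ V) ∧ x ∉ A).card

end Pool.Agent.Helper83.SETH
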