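import Pool.Agent.Helper83.SETH.Xor
namespace Pool.Agent.Helper83.SETH
open Finset

variable {n k : ℕ}

/-- The clause `c` is falsified by `x`. -/
def Fals (c : Clause k n) (x : X n) : Prop := ∀ l, x (c l).1 = (c l).2

theorem sat_iff {m : ℕ} (φ : Fin m → Clause k n) (x : X n) : Sat φ x ↔ ∀ j, ¬ Fals (φ j) x := by
  unfold Sat Fals
  simp only [not_forall, ne_eq]

/-- the literals falsified by `x` -/
def graph (x : X n) : Finset (Fin n × Bool) := univ.image fun i => (i, x i)

theorem mem_graph {x : X n} {p : Fin n × Bool} : p ∈ graph x ↔ x p.1 = p.2 := by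
  unfold graph
  rw [mem_image]
  constructor
  · rintro ⟨i, _, rfl⟩; rfl
  · intro h; exact ⟨p.1, mem_univ _, by rw [h]⟩

theorem card_graph (x : X n) : (graph x).card = n := by
  unfold graph
  rw [card_image_of_injective _ (fun i j h => (Prod.mk.inj h).1)]
  simp

theorem card_graph_inter (x y : X n) : (graph x ∩ graph y).card ≤ n - hammingDist x y := by
  have h1 : graph x ∩ graph y ⊆ (univ.filter fun i : Fin n => x i = y i).image
      fun i => (i, x i) := by
    intro p hp
    rw [mem_inter, mem_graph, mem_graph] at hp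
    rw [mem_image]
    refine ⟨p.1, ?_, ?_⟩
    · simp only [mem_filter, mem_univ, true_and]; rw [hp.1, hp.2]
    · rw [hp.1]
  refine (card_le_card h1).trans (card_image_le.trans ?_)
  have h2 : (univ.filter fun i : Fin n => x i = y i).card + hammingDist x y = n := by
    unfold hammingDist
    have := Finset.card_filter_add_card_filter_not (s := (univ : Finset (Fin n)))
      (fun i : Fin n => x i = y i)
    simpa using this
  omega

open Classical in
theorem card_all_mem (G : Finset (Fin n × Bool)) :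
    (univ.filter fun c : Clause k n => ∀ l, c l ∈ G).card = G.card ^ k := by
  have : (univ.filter fun c : Clause k n => ∀ l, c l ∈ G) = Fintype.piFinset (fun _ => G) := by
    ext c; simp
  rw [this, Fintype.card_piFinset]; simp

open Classical in
theorem card_fals (x : X n) : (univ.filter fun c : Clause k n => Fals c x).card = n ^ k := by
  have h := card_all_mem (k := k) (graph x)
  rw [card_graph] at h
  rw [← h]
  congr 1
  ext c
  rw [mem_filter, mem_filter]
  simp only [Fals, mem_graph]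

open Classical in
theorem card_fals2 (x y : X n) {d : ℕ} (hd : d ≤ hammingDist x y) :
    (univ.filter fun c : Clause k n => Fals c x ∧ Fals c y).card ≤ (n - d) ^ k := by
  have h := card_all_mem (k := k) (graph x ∩ graph y)
  have h1 : (univ.filter fun c : Clause k n => Fals c x ∧ Fals c y) =
      (univ.filter fun c : Clause k n => ∀ l, c l ∈ graph x ∩ graph y) := by
    ext c
    rw [mem_filter, mem_filter]
    simp only [Fals, mem_inter, mem_graph]
    exact ⟨fun h => ⟨h.1, fun l => ⟨h.2.1 l, h.2.2 l⟩⟩,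
      fun h => ⟨h.1, fun l => (h.2 l).1, fun l => (h.2 l).2⟩⟩
  rw [h1, h]
  apply Nat.pow_le_pow_left
  exact (card_graph_inter x y).trans (by omega)

open Classical in
/-- Bonferroni. -/
theorem bonferroni {ι : Type*} [Fintype ι] (y : ι → X n) {d : ℕ}
    (hy : ∀ i j, i ≠ j → d ≤ hammingDist (y i) (y j))
    (hT : Fintype.card ι * (n - d) ^ k ≤ n ^ k) :
    Fintype.card ι * n ^ k ≤ 2 * (univ.filter fun c : Clause k n => ∃ i, Fals c (y i)).card := by
  set T := Fintype.card ι with hTdef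
  -- multiplicities
  set r : Clause k n → ℕ := fun c => (univ.filter fun i => Fals c (y i)).card with hr
  have hpt : ∀ c, 3 * r c ≤ r c ^ 2 + 2 * (if ∃ i, Fals c (y i) then 1 else 0) := by
    intro c
    by_cases h : ∃ i, Fals c (y i)
    · rw [if_pos h]
      rcases Nat.lt_or_ge (r c) 2 with h2 | h2
      · interval_cases r c <;> norm_num
      · nlinarith [Nat.mul_le_mul h2 h2, Nat.sub_add_cancel h2, sq_nonneg ((r c : ℤ) - 2)]
    · rw [if_neg h]
      have : r c = 0 := by
        rw [hr]; simp only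
        rw [Finset.card_eq_zero, Finset.filter_eq_empty_iff]
        intro i _ hi
        exact h ⟨i, hi⟩
      rw [this]; norm_num
  have h1 : ∑ c, r c = T * n ^ k := by
    have : ∀ c, r c = ∑ i, if Fals c (y i) then 1 else 0 := by
      intro c; rw [hr]; simp only; rw [Finset.card_filter]
    rw [Finset.sum_congr rfl (fun c _ => this c), Finset.sum_comm]
    have h2 : ∀ i, (∑ c : Clause k n, if Fals c (y i) then 1 else 0) = n ^ k := by
      intro i; rw [← Finset.card_filter]; exact card_fals (y i)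
    rw [Finset.sum_congr rfl (fun i _ => h2 i)]
    simp [hTdef]
  have h2 : ∑ c, r c ^ 2 ≤ T * n ^ k + T * n ^ k := by
    have : ∀ c, r c ^ 2 = ∑ i, ∑ j, if Fals c (y i) ∧ Fals c (y j) then 1 else 0 := by
      intro c
      rw [sq, hr]; simp only
      rw [Finset.card_filter, Finset.sum_mul_sum]
      apply Finset.sum_congr rfl; intro i _
      apply Finset.sum_congr rfl; intro j _
      by_cases ha : Fals c (y i) <;> by_cases hb : Fals c (y j) <;> simp [ha, hb]
    rw [Finset.sum_congr rfl (fun c _ => this c), Finset.sum_comm]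
    have h3 : ∀ i, ∑ c : Clause k n, ∑ j, (if Fals c (y i) ∧ Fals c (y j) then 1 else 0) ≤
        n ^ k + n ^ k := by
      intro i
      rw [Finset.sum_comm]
      have h4 : ∀ j, (∑ c : Clause k n, if Fals c (y i) ∧ Fals c (y j) then 1 else 0) =
          (univ.filter fun c : Clause k n => Fals c (y i) ∧ Fals c (y j)).card := by
        intro j; rw [← Finset.card_filter]
      rw [Finset.sum_congr rfl (fun j _ => h4 j), ← Finset.add_sum_erase univ _ (mem_univ i)]
      apply add_le_add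
      · simp only [and_self]
        exact (card_fals (y i)).le
      · calc ∑ j ∈ univ.erase i, (univ.filter fun c : Clause k n =>
              Fals c (y i) ∧ Fals c (y j)).card ≤ ∑ j ∈ univ.erase i, (n - d) ^ k := by
              apply Finset.sum_le_sum
              intro j hj
              exact card_fals2 _ _ (hy i j (Finset.ne_of_mem_erase hj).symm)
          _ = (univ.erase i).card * (n - d) ^ k := by simp
          _ ≤ T * (n - d) ^ k := Nat.mul_le_mul_right _ (by
              rw [hTdef, ← Finset.card_univ]; exact card_le_card (erase_subset _ _))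
          _ ≤ n ^ k := hT
    refine (Finset.sum_le_sum (fun i _ => h3 i)).trans ?_
    simp [hTdef, mul_add]
  have h3 : ∑ c : Clause k n, (if ∃ i, Fals c (y i) then 1 else 0) =
      (univ.filter fun c : Clause k n => ∃ i, Fals c (y i)).card := by
    rw [← Finset.card_filter]
  have h4 := Finset.sum_le_sum (fun c (_ : c ∈ (univ : Finset (Clause k n))) => hpt c)
  rw [← Finset.mul_sum, h1, Finset.sum_add_distrib, ← Finset.mul_sum, h3] at h4
  omega

/-- the far condition in numbers -/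
theorem far_num (k n q L : ℕ) (hn : 1 ≤ n) (hq : n ≤ k * q) :
    2 ^ (2 * L) * (n - 2 * L * q) ^ k ≤ n ^ k := by
  have hn0 : (0 : ℝ) < n := by exact_mod_cast hn
  have h1 : ((n - 2 * L * q : ℕ) : ℝ) ≤ n * Real.exp (-(2 * L * q / n)) := by
    rcases Nat.le_total n (2 * L * q) with h | h
    · rw [Nat.sub_eq_zero_of_le h]; simp; positivity
    · rw [Nat.cast_sub h]
      push_cast
      calc (n : ℝ) - 2 * L * q = n * (-(2 * L * q / n) + 1) := by field_simp; ring
        _ ≤ _ := mul_le_mul_of_nonneg_left (Real.add_one_le_exp _) hn0.le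
  have h2 : (((n - 2 * L * q) ^ k : ℕ) : ℝ) ≤ n ^ k * Real.exp (-(2 * L)) := by
    push_cast
    calc ((n - 2 * L * q : ℕ) : ℝ) ^ k ≤ (n * Real.exp (-(2 * L * q / n))) ^ k :=
          pow_le_pow_left₀ (Nat.cast_nonneg _) h1 k
      _ = n ^ k * Real.exp (k * (-(2 * L * q / n))) := by rw [mul_pow, ← Real.exp_nat_mul]
      _ ≤ n ^ k * Real.exp (-(2 * L)) := by
          apply mul_le_mul_of_nonneg_left _ (by positivity)
          apply Real.exp_le_exp.mpr
          have h3 : (n : ℝ) ≤ k * q := by exact_mod_cast hq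
          have h4 : (1 : ℝ) ≤ k * q / n := by rw [le_div_iff₀ hn0]; linarith
          have h5 : (k : ℝ) * (-(2 * L * q / n)) = -(2 * L * (k * q / n)) := by ring
          rw [h5]
          have h6 : (0 : ℝ) ≤ 2 * L := by positivity
          nlinarith
  have h3 : (2 : ℝ) ^ (2 * L) * Real.exp (-(2 * L)) ≤ 1 := by
    have h4 : (2 : ℝ) ^ (2 * L) ≤ Real.exp (2 * L) := by
      have : Real.exp (2 * L) = Real.exp 1 ^ (2 * L) := by
        rw [← Real.exp_nat_mul]; push_cast; ring_nf
      rw [this]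
      apply pow_le_pow_left₀ (by norm_num)
      have := Real.add_one_le_exp (1 : ℝ)
      linarith
    rw [Real.exp_neg]
    rw [mul_inv_le_iff₀ (Real.exp_pos _)]
    linarith
  have h4 : ((2 ^ (2 * L) * (n - 2 * L * q) ^ k : ℕ) : ℝ) ≤ ((n ^ k : ℕ) : ℝ) := by
    push_cast
    push_cast at h2
    calc (2 : ℝ) ^ (2 * L) * ((n - 2 * L * q : ℕ) : ℝ) ^ k
        ≤ 2 ^ (2 * L) * (n ^ k * Real.exp (-(2 * L))) :=
          mul_le_mul_of_nonneg_left h2 (by positivity)
      _ = n ^ k * (2 ^ (2 * L) * Real.exp (-(2 * L))) := by ring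
      _ ≤ n ^ k * 1 := mul_le_mul_of_nonneg_left h3 (by positivity)
      _ = n ^ k := mul_one _
  exact_mod_cast h4

open Classical in
/-- Number of formulas satisfied by all points of a far grid. -/
theorem grid_count (k n q L : ℕ) (hn : 1 ≤ n) (hq : n ≤ k * q) (m : ℕ)
    (u v : Fin (2 ^ L) → X n)
    (huv : ∀ p q' : Fin (2 ^ L) × Fin (2 ^ L), p ≠ q' →
      2 * L * q ≤ hammingDist (xr (u p.1) (v p.2)) (xr (u q'.1) (v q'.2))) :
    ((univ.filter fun φ : Fin m → Clause k n => ∀ p : Fin (2 ^ L) × Fin (2 ^ L),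
        Sat φ (xr (u p.1) (v p.2))).card : ℝ) ≤
      ((2 * n : ℝ) ^ k * Real.exp (-(2 ^ (2 * L) / 2 ^ (k + 1)))) ^ m := by
  set G : Finset (Clause k n) := univ.filter fun c => ∀ p : Fin (2 ^ L) × Fin (2 ^ L),
    ¬ Fals c (xr (u p.1) (v p.2)) with hG
  have h1 : (univ.filter fun φ : Fin m → Clause k n => ∀ p : Fin (2 ^ L) × Fin (2 ^ L),
      Sat φ (xr (u p.1) (v p.2))) = Fintype.piFinset (fun _ => G) := by
    ext φ
    simp only [mem_filter, mem_univ, true_and, Fintype.mem_piFinset, hG, sat_iff]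
    exact ⟨fun h l p => h p l, fun h p l => h l p⟩
  rw [h1, Fintype.card_piFinset]
  simp only [prod_const, card_univ, Fintype.card_fin]
  push_cast
  apply pow_le_pow_left₀ (Nat.cast_nonneg _)
  have hcT : Fintype.card (Fin (2 ^ L) × Fin (2 ^ L)) = 2 ^ (2 * L) := by
    rw [Fintype.card_prod, Fintype.card_fin, ← pow_add]; congr 1; ring
  have hbon := bonferroni (k := k) (fun p : Fin (2 ^ L) × Fin (2 ^ L) => xr (u p.1) (v p.2))
    (d := 2 * L * q) huv (by rw [hcT]; exact far_num k n q L hn hq)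
  rw [hcT] at hbon
  have hadd : G.card + (univ.filter fun c : Clause k n =>
      ∃ p : Fin (2 ^ L) × Fin (2 ^ L), Fals c (xr (u p.1) (v p.2))).card = (n * 2) ^ k := by
    have h2 := Finset.card_filter_add_card_filter_not (s := (univ : Finset (Clause k n)))
      (fun c : Clause k n => ∀ p : Fin (2 ^ L) × Fin (2 ^ L), ¬ Fals c (xr (u p.1) (v p.2)))
    simp only [not_forall, not_not] at h2
    rw [hG, h2]
    simp [Clause]
  have haddR : (G.card : ℝ) + ((univ.filter fun c : Clause k n =>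
      ∃ p : Fin (2 ^ L) × Fin (2 ^ L), Fals c (xr (u p.1) (v p.2))).card : ℝ) = (2 * n) ^ k := by
    have h2 : ((G.card + (univ.filter fun c : Clause k n =>
      ∃ p : Fin (2 ^ L) × Fin (2 ^ L), Fals c (xr (u p.1) (v p.2))).card : ℕ) : ℝ) =
        (((n * 2) ^ k : ℕ) : ℝ) := by rw [hadd]
    push_cast at h2
    rw [h2, mul_comm]
  have hbonR : (2 : ℝ) ^ (2 * L) * n ^ k ≤ 2 * ((univ.filter fun c : Clause k n =>
      ∃ p : Fin (2 ^ L) × Fin (2 ^ L), Fals c (xr (u p.1) (v p.2))).card : ℝ) := by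
    exact_mod_cast hbon
  have h3 : (G.card : ℝ) ≤ (2 * n : ℝ) ^ k * (-(2 ^ (2 * L) / 2 ^ (k + 1)) + 1) := by
    have h4 : (2 * n : ℝ) ^ k * (-(2 ^ (2 * L) / 2 ^ (k + 1)) + 1) =
        (2 * n) ^ k - 2 ^ (2 * L) * n ^ k / 2 := by
      rw [mul_pow, pow_succ]
      field_simp
      ring
    rw [h4]; linarith
  exact h3.trans (mul_le_mul_of_nonneg_left (Real.add_one_le_exp _) (by positivity))

theorem quarter_pow (k : ℕ) (hk : 1 ≤ k) : (1 / 4 : ℝ) ≤ (1 - 1 / 2 ^ k) ^ (2 ^ k) := by
  induction k, hk using Nat.le_induction with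
  | base => norm_num
  | succ k hk ih =>
    have h1 : (2 : ℝ) ≤ 2 ^ k := by
      calc (2 : ℝ) = 2 ^ 1 := by norm_num
        _ ≤ 2 ^ k := pow_le_pow_right₀ (by norm_num) hk
    have h0 : (0 : ℝ) ≤ 1 - 1 / 2 ^ k := by
      have : (1 : ℝ) / 2 ^ k ≤ 1 := by
        rw [div_le_one (by positivity)]; linarith
      linarith
    calc (1 / 4 : ℝ) ≤ (1 - 1 / 2 ^ k) ^ (2 ^ k) := ih
      _ ≤ ((1 - 1 / 2 ^ (k + 1)) ^ 2) ^ (2 ^ k) := by
          apply pow_le_pow_left₀ h0
          have h2 : (1 : ℝ) / 2 ^ k = 2 * (1 / 2 ^ (k + 1)) := by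
            rw [pow_succ]; field_simp
          rw [h2]
          nlinarith [sq_nonneg ((1 : ℝ) / 2 ^ (k + 1))]
      _ = (1 - 1 / 2 ^ (k + 1)) ^ (2 ^ (k + 1)) := by
          rw [← pow_mul]; congr 1; rw [pow_succ]; ring

open Classical in
theorem total_models (k n m : ℕ) :
    ∑ φ : Fin m → Clause k n, (models φ).card = 2 ^ n * ((2 * n) ^ k - n ^ k) ^ m := by
  have h1 : ∀ φ : Fin m → Clause k n, (models φ).card = ∑ x : X n, if Sat φ x then 1 else 0 := by
    intro φ; unfold models; rw [Finset.card_filter]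
  rw [Finset.sum_congr rfl (fun φ _ => h1 φ), Finset.sum_comm]
  have h2 : ∀ x : X n, (∑ φ : Fin m → Clause k n, if Sat φ x then 1 else 0) =
      ((2 * n) ^ k - n ^ k) ^ m := by
    intro x
    rw [← Finset.card_filter]
    have h3 : (univ.filter fun φ : Fin m → Clause k n => Sat φ x) =
        Fintype.piFinset (fun _ => univ.filter fun c : Clause k n => ¬ Fals c x) := by
      ext φ
      simp only [mem_filter, mem_univ, true_and, Fintype.mem_piFinset, sat_iff]
    rw [h3, Fintype.card_piFinset]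
    simp only [prod_const, card_univ, Fintype.card_fin]
    congr 1
    have h4 := Finset.card_filter_add_card_filter_not (s := (univ : Finset (Clause k n)))
      (fun c : Clause k n => Fals c x)
    rw [card_fals] at h4
    have h5 : (univ : Finset (Clause k n)).card = (2 * n) ^ k := by
      simp [Clause, mul_comm]
    omega
  rw [Finset.sum_congr rfl (fun x _ => h2 x)]
  simp

/-- A random `k`-CNF is grid-free and has many models. -/
theorem exists_sformula (k n q L : ℕ) (hk : 1 ≤ k) (hn : 1 ≤ n) (hL : 8 * k ≤ 2 ^ L)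
    (hq : n ≤ k * q) (hq' : k * q ≤ 2 * n) :
    ∃ φ : Fin (2 ^ k * q) → Clause k n,
      SGridFree (models φ) (2 ^ L) (2 * L * q) ∧ 2 ^ n ≤ 2 ^ (2 * q + 1) * (models φ).card := by
  classical
  by_contra hcon
  push Not at hcon
  set m := 2 ^ k * q with hm
  set Bad : Finset (Fin m → Clause k n) :=
    univ.filter fun φ => ¬ SGridFree (models φ) (2 ^ L) (2 * L * q) with hBad
  set Good : Finset (Fin m → Clause k n) :=
    univ.filter fun φ => SGridFree (models φ) (2 ^ L) (2 * L * q) with hGood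
  have hn0 : (0 : ℝ) < n := by exact_mod_cast hn
  -- bad formulas
  set E : ℝ := ((2 * n : ℝ) ^ k * Real.exp (-(2 ^ (2 * L) / 2 ^ (k + 1)))) ^ m with hE
  have hbad : (Bad.card : ℝ) ≤ 2 ^ (2 * 2 ^ L * n) * E := by
    set W : Finset ((Fin (2 ^ L) → X n) × (Fin (2 ^ L) → X n)) :=
      univ.filter fun w => ∀ p q' : Fin (2 ^ L) × Fin (2 ^ L), p ≠ q' →
        2 * L * q ≤ hammingDist (xr (w.1 p.1) (w.2 p.2)) (xr (w.1 q'.1) (w.2 q'.2)) with hW
    have h1 : Bad ⊆ W.biUnion fun w => univ.filter fun φ : Fin m → Clause k n =>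
        ∀ p : Fin (2 ^ L) × Fin (2 ^ L), Sat φ (xr (w.1 p.1) (w.2 p.2)) := by
      intro φ hφ
      rw [hBad, mem_filter] at hφ
      have h2 := hφ.2
      unfold SGridFree at h2
      push Not at h2
      obtain ⟨u, v, h3, h7⟩ := h2
      rw [mem_biUnion]
      refine ⟨(u, v), ?_, ?_⟩
      · rw [hW, mem_filter]
        exact ⟨mem_univ _, h3⟩
      · simp only [mem_filter, mem_univ, true_and]
        intro p
        have := h7 p
        unfold models at this
        exact (mem_filter.mp this).2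
    have h2 : (Bad.card : ℝ) ≤ ∑ w ∈ W, ((univ.filter fun φ : Fin m → Clause k n =>
        ∀ p : Fin (2 ^ L) × Fin (2 ^ L), Sat φ (xr (w.1 p.1) (w.2 p.2))).card : ℝ) := by
      have := (card_le_card h1).trans card_biUnion_le
      exact_mod_cast this
    have h3 : ∑ w ∈ W, ((univ.filter fun φ : Fin m → Clause k n =>
        ∀ p : Fin (2 ^ L) × Fin (2 ^ L), Sat φ (xr (w.1 p.1) (w.2 p.2))).card : ℝ) ≤
          W.card * E := by
      refine (Finset.sum_le_card_nsmul _ _ E ?_).trans (le_of_eq (nsmul_eq_mul _ _))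
      intro w hw
      rw [hW, mem_filter] at hw
      exact grid_count k n q L hn hq m w.1 w.2 hw.2
    have h4 : (W.card : ℝ) ≤ 2 ^ (2 * 2 ^ L * n) := by
      have h5 : W.card ≤ 2 ^ (2 * 2 ^ L * n) := by
        refine (Finset.card_le_univ W).trans (le_of_eq ?_)
        rw [Fintype.card_prod]
        simp only [Fintype.card_pi, prod_const, card_univ, Fintype.card_fin, Fintype.card_bool]
        rw [← pow_mul, ← pow_add]
        congr 1; ring
      exact_mod_cast h5
    have hE0 : 0 ≤ E := by positivity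
    exact (h2.trans h3).trans (mul_le_mul_of_nonneg_right h4 hE0)
  -- numbers
  set Q : ℝ := ((2 * n : ℝ) ^ k) ^ m with hQ
  have hQ0 : 0 < Q := by positivity
  have hbad2 : (2 : ℝ) ^ (2 * q + 1) * Bad.card ≤ Q := by
    have h1 : E = Q * Real.exp (-(2 ^ (2 * L) * q / 2)) := by
      rw [hE, hQ, mul_pow, ← Real.exp_nat_mul]
      congr 2
      rw [hm]; push_cast; rw [pow_succ]
      field_simp
    set w : ℕ := 2 * 2 ^ L * n + (2 * q + 1) with hw
    have h2 : (w : ℝ) ≤ 2 ^ (2 * L) * q / 2 := by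
      have h3 : 2 * w ≤ 2 ^ (2 * L) * q := by
        have h4 : 8 * n * 2 ^ L ≤ 2 ^ (2 * L) * q := by
          calc 8 * n * 2 ^ L ≤ 8 * (k * q) * 2 ^ L := by gcongr
            _ = 2 ^ L * (8 * k) * q := by ring
            _ ≤ 2 ^ L * 2 ^ L * q := by gcongr
            _ = 2 ^ (2 * L) * q := by rw [← pow_add]; congr 2; ring
        have h5 : q ≤ 2 * n := le_trans (Nat.le_mul_of_pos_left _ (by omega)) hq'
        have h6 : 8 ≤ 2 ^ L := by omega
        have h7 : n * 8 ≤ n * 2 ^ L := Nat.mul_le_mul_left _ h6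
        rw [hw]
        have h8 : 2 * (2 * 2 ^ L * n + (2 * q + 1)) = 4 * (n * 2 ^ L) + (4 * q + 2) := by ring
        have h9 : 8 * n * 2 ^ L = 8 * (n * 2 ^ L) := by ring
        rw [h8]; rw [h9] at h4
        omega
      have h4 : ((2 * w : ℕ) : ℝ) ≤ ((2 ^ (2 * L) * q : ℕ) : ℝ) := by exact_mod_cast h3
      push_cast at h4
      linarith
    have h3 : Real.exp (-(2 ^ (2 * L) * q / 2)) ≤ ((2 : ℝ) ^ w)⁻¹ := by
      rw [Real.exp_neg]
      apply inv_anti₀ (by positivity)
      calc (2 : ℝ) ^ w ≤ Real.exp 1 ^ w := by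
            apply pow_le_pow_left₀ (by norm_num)
            have := Real.add_one_le_exp (1 : ℝ); linarith
        _ = Real.exp w := by rw [← Real.exp_nat_mul, mul_one]
        _ ≤ _ := Real.exp_le_exp.mpr h2
    calc (2 : ℝ) ^ (2 * q + 1) * Bad.card ≤ 2 ^ (2 * q + 1) * (2 ^ (2 * 2 ^ L * n) * E) := by
          gcongr
      _ = 2 ^ w * E := by rw [hw, pow_add]; ring
      _ = 2 ^ w * (Q * Real.exp (-(2 ^ (2 * L) * q / 2))) := by rw [h1]
      _ ≤ 2 ^ w * (Q * ((2 : ℝ) ^ w)⁻¹) := by gcongr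
      _ = Q := by field_simp
  have htot : (2 : ℝ) ^ n * Q ≤ 4 ^ q * ∑ φ : Fin m → Clause k n, ((models φ).card : ℝ) := by
    have h1 : (∑ φ : Fin m → Clause k n, ((models φ).card : ℝ)) =
        2 ^ n * ((2 * n : ℝ) ^ k - n ^ k) ^ m := by
      have h2 := total_models k n m
      have h3 : ((∑ φ : Fin m → Clause k n, (models φ).card : ℕ) : ℝ) =
          ((2 ^ n * ((2 * n) ^ k - n ^ k) ^ m : ℕ) : ℝ) := by rw [h2]
      push_cast [Nat.cast_sub (Nat.pow_le_pow_left (by omega : n ≤ 2 * n) k)] at h3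
      exact h3
    have h2 : (2 * n : ℝ) ^ k - n ^ k = (2 * n) ^ k * (1 - 1 / 2 ^ k) := by
      rw [mul_pow]; field_simp
    rw [h1, h2, mul_pow]
    have h3 : (1 : ℝ) ≤ 4 ^ q * (1 - 1 / 2 ^ k) ^ m := by
      have h4 := quarter_pow k hk
      rw [hm, pow_mul, ← mul_pow]
      apply one_le_pow₀
      linarith
    calc (2 : ℝ) ^ n * Q = 2 ^ n * Q * 1 := (mul_one _).symm
      _ ≤ 2 ^ n * Q * (4 ^ q * (1 - 1 / 2 ^ k) ^ m) :=
          mul_le_mul_of_nonneg_left h3 (by positivity)
      _ = _ := by rw [hQ]; ring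
  -- good formulas
  have hsplit : ∑ φ : Fin m → Clause k n, ((models φ).card : ℝ) =
      ∑ φ ∈ Good, ((models φ).card : ℝ) + ∑ φ ∈ Bad, ((models φ).card : ℝ) :=
    (Finset.sum_filter_add_sum_filter_not univ _ _).symm
  have hcards : (Good.card : ℝ) + Bad.card = Q := by
    have h1 : Good.card + Bad.card = ((2 * n) ^ k) ^ m := by
      rw [hGood, hBad, Finset.card_filter_add_card_filter_not]
      simp [Clause, mul_comm]
    rw [hQ]
    exact_mod_cast h1
  have hgood : (2 : ℝ) ^ (2 * q + 1) * ∑ φ ∈ Good, ((models φ).card : ℝ) ≤ Good.card * 2 ^ n := by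
    rw [Finset.mul_sum]
    refine (Finset.sum_le_card_nsmul _ _ ((2 : ℝ) ^ n) ?_).trans (le_of_eq (nsmul_eq_mul _ _))
    intro φ hφ
    have := (hcon φ (mem_filter.mp hφ).2).le
    exact_mod_cast this
  have hbad3 : ∑ φ ∈ Bad, ((models φ).card : ℝ) ≤ Bad.card * 2 ^ n := by
    refine (Finset.sum_le_card_nsmul _ _ ((2 : ℝ) ^ n) ?_).trans (le_of_eq (nsmul_eq_mul _ _))
    intro φ _
    have : (models φ).card ≤ 2 ^ n := by
      refine (Finset.card_le_univ _).trans (le_of_eq ?_)
      simp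
    exact_mod_cast this
  have h4 : (4 : ℝ) ^ q = 2 ^ (2 * q) := by rw [pow_mul]; norm_num
  have h5 : 2 * ((2 : ℝ) ^ n * Q) ≤ 2 ^ n * (Good.card + 2 ^ (2 * q + 1) * Bad.card) := by
    calc 2 * ((2 : ℝ) ^ n * Q) ≤ 2 * (4 ^ q * ∑ φ : Fin m → Clause k n, ((models φ).card : ℝ)) :=
          by linarith
      _ = 2 ^ (2 * q + 1) * ∑ φ ∈ Good, ((models φ).card : ℝ) +
          2 ^ (2 * q + 1) * ∑ φ ∈ Bad, ((models φ).card : ℝ) := by
          rw [hsplit, h4, pow_succ]; ring
      _ ≤ Good.card * 2 ^ n + 2 ^ (2 * q + 1) * (Bad.card * 2 ^ n) := by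
          apply add_le_add hgood
          exact mul_le_mul_of_nonneg_left hbad3 (by positivity)
      _ = _ := by ring
  have h6 : 2 * Q ≤ Good.card + 2 ^ (2 * q + 1) * Bad.card := by
    have h7 : (2 : ℝ) ^ n * (2 * Q) ≤ 2 ^ n * (Good.card + 2 ^ (2 * q + 1) * Bad.card) := by
      linarith
    exact le_of_mul_le_mul_left h7 (by positivity)
  have h7 : (Bad.card : ℝ) ≤ 0 := by linarith
  have h8 : (Bad.card : ℝ) = 0 := le_antisymm h7 (Nat.cast_nonneg _)
  rw [h8] at h6 hcards
  linarith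

end Pool.Agent.Helper83.SETH
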