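import Pool.Agent.Helper83.SETH.SCircuit

/-!
XOR programs, and their conversion to the circuits of the proof.
-/

namespace Pool.Agent.Helper83.SETH

open Finset

namespace XorProgram

variable {n s : ℕ} {W : ℝ} (D : XorProgram n s W)

theorem conv_comm (f h : X n → ℕ) (x : X n) :
    ∑ y, f y * h (xr x y) = ∑ y, h y * f (xr x y) := by
  have hinv : Function.Involutive (xr x) := fun y => xr_xr_cancel_left x y
  rw [← Equiv.sum_comp hinv.toPerm]
  apply Finset.sum_congr rfl
  intro y _
  simp only [Function.Involutive.coe_toPerm]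
  rw [xr_xr_cancel_left, mul_comm]

theorem exists_scirc {K : ℕ} (hW : W ≤ K) {v : ℕ} (hv : v < s) :
    ∃ E : SCirc n, E.Valid ∧ E.K = K ∧ E.top = v ∧ E.g = D.g := by
  classical
  let MM : ℕ → Finset (X n) := fun u => univ.filter fun x => 0 < D.g u x
  have hex : ∀ u, ∃ k : Kd, u ≤ v → (match k with
      | .leaf => (MM u).card ≤ K ∨ Aff (MM u)
      | .or a b => a < u ∧ b < u ∧ ∀ x, D.g u x = D.g a x + D.g b x
      | .and a b => a < u ∧ b < u ∧ (∀ x, D.g u x = ∑ y, D.g b y * D.g a (xr x y)) ∧
          (MM b).card ≤ (MM a).card) := by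
    intro u
    by_cases hu : u ≤ v
    · rcases D.rule u (by omega) with h2 | ⟨H, hH, h3⟩ | ⟨a, b, ha, hb, hg⟩ |
        ⟨a, b, ha, hb, hg⟩
      · refine ⟨.leaf, fun _ => ?_⟩
        simp only
        left
        have h4 : MM u = univ.filter fun x : Fin n → Bool => D.g u x ≠ 0 := by
          apply Finset.filter_congr
          intro x _
          exact Nat.pos_iff_ne_zero
        rw [h4]
        exact_mod_cast h2.trans hW
      · refine ⟨.leaf, fun _ => ?_⟩
        simp only
        right
        have h4 : MM u = H := by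
          ext x
          simp only [MM, mem_filter, mem_univ, true_and]
          rw [h3 x]
          split_ifs with h
          · simp [h]
          · simp [h]
        rw [h4]
        exact hH
      · exact ⟨.or a b, fun _ => ⟨ha, hb, hg⟩⟩
      · by_cases hM : (MM b).card ≤ (MM a).card
        · refine ⟨.and a b, fun _ => ⟨ha, hb, ?_, hM⟩⟩
          intro x
          rw [hg x]
          exact conv_comm (D.g a) (D.g b) x
        · refine ⟨.and b a, fun _ => ⟨hb, ha, ?_, by omega⟩⟩
          intro x
          exact hg x
    · exact ⟨.leaf, fun h => absurd h hu⟩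
  choose kd hkd using hex
  exact ⟨⟨D.g, kd, K, v⟩, fun u hu => hkd u hu, rfl, rfl, rfl⟩

end XorProgram

end Pool.Agent.Helper83.SETH
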