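import Pool.Agent.Helper83.SETH.Program
import Pool.Agent.Helper83.SETH.XorProgram
import Pool.Agent.Helper83.SETH.Ball
import Pool.Agent.Helper83.SETH.SExist

/-!
Assembly: strong exponential lower bounds for decomposable circuits and for XOR programs.
-/

namespace Pool.Agent.Helper83.SETH

open Finset

/-- The arithmetic of the parameters. -/
theorem params (k n : ℕ) (hk : 2 ≤ k) (hn : 4 * k ^ 2 ≤ n) :
    ∃ L q r : ℕ, 4 ≤ L ∧ 8 * k ≤ 2 ^ L ∧ n ≤ k * q ∧ k * q ≤ 2 * n ∧ 1 ≤ q ∧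
      r * 2 ^ L ≤ L ^ 2 * q ∧
      (n : ℝ) / (2 * k ^ 2) ≤ (r : ℝ) - 1 ∧
      (20 * L ^ 2 * q + 2 : ℝ) ≤ 1050 * Real.logb 2 k ^ 2 / k * n ∧
      Real.logb 2 k ^ 2 / k * n ≤ 5 * L ^ 2 * q ∧
      (2 * q + 1 : ℝ) ≤ 6 / k * n := by
  have hk0 : (0 : ℝ) < k := by positivity
  have hkR : (2 : ℝ) ≤ k := by exact_mod_cast hk
  set c := Nat.clog 2 k with hc
  have h1 : k ≤ 2 ^ c := Nat.le_pow_clog (by norm_num) k
  have h2 : 2 ^ c < 2 * k := by
    have h3 := Nat.pow_pred_clog_lt_self (b := 2) (by norm_num) (x := k) (by omega)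
    rw [← hc] at h3
    have h4 : 0 < c := Nat.clog_pos (by norm_num) hk
    have h5 : c = c.pred + 1 := by
      rw [Nat.pred_eq_sub_one]; omega
    rw [h5, pow_succ]
    omega
  have hcpos : 1 ≤ c := Nat.clog_pos (by norm_num) hk
  set q := (n + k - 1) / k with hq
  have hkpos : 0 < k := by omega
  have hnk : k ≤ n := by nlinarith
  have hq1 : n ≤ k * q := by
    have := Nat.div_add_mod (n + k - 1) k
    have h3 := Nat.mod_lt (n + k - 1) hkpos
    rw [← hq] at this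
    omega
  have hq2 : k * q ≤ n + k - 1 := Nat.mul_div_le _ _
  have hq2' : k * q ≤ 2 * n := by omega
  have hq3 : 1 ≤ q := by
    rcases Nat.eq_zero_or_pos q with h | h
    · exfalso
      rw [h, Nat.mul_zero] at hq1
      omega
    · exact h
  set L := c + 3 with hL
  have hL8 : 8 * k ≤ 2 ^ L := by rw [hL, pow_add]; omega
  have hL16 : 2 ^ L < 16 * k := by rw [hL, pow_add]; omega
  set r := L ^ 2 * q / 2 ^ L with hr
  have hLR8 : (8 : ℝ) * k ≤ 2 ^ L := by exact_mod_cast hL8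
  have hLR16 : (2 : ℝ) ^ L < 16 * k := by exact_mod_cast hL16
  have hq1R : (n : ℝ) ≤ k * q := by exact_mod_cast hq1
  have hq2R : (k : ℝ) * q ≤ 2 * n := by exact_mod_cast hq2'
  have hqR : (1 : ℝ) ≤ q := by exact_mod_cast hq3
  have hL4 : (4 : ℝ) ≤ L := by
    rw [hL]; push_cast
    have : (1 : ℝ) ≤ c := by exact_mod_cast hcpos
    linarith
  have hnR : (4 : ℝ) * k ^ 2 ≤ n := by exact_mod_cast hn
  -- the logarithm
  set l := Real.logb 2 k with hl
  have hl1 : 1 ≤ l := by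
    rw [hl, Real.le_logb_iff_rpow_le (by norm_num) hk0]
    simpa using hkR
  have hLl : (L : ℝ) ≤ 5 * l := by
    have h3 : (L : ℝ) ≤ 4 + l := by
      have h4 : Real.logb 2 ((2 : ℝ) ^ L) ≤ Real.logb 2 (16 * k) :=
        Real.logb_le_logb_of_le (by norm_num) (by positivity) hLR16.le
      rw [Real.logb_mul (by norm_num) hk0.ne'] at h4
      have h5 : Real.logb 2 ((2 : ℝ) ^ L) = L := by
        rw [← Real.rpow_natCast, Real.logb_rpow (by norm_num) (by norm_num)]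
      have h6 : Real.logb 2 16 = 4 := by
        rw [show (16 : ℝ) = 2 ^ (4 : ℝ) by norm_num, Real.logb_rpow (by norm_num) (by norm_num)]
      rw [h5, h6] at h4
      exact h4
    linarith
  have hlL : l ≤ L := by
    have h4 : Real.logb 2 k ≤ Real.logb 2 ((2 : ℝ) ^ L) :=
      Real.logb_le_logb_of_le (by norm_num) hk0 (by linarith)
    have h5 : Real.logb 2 ((2 : ℝ) ^ L) = L := by
      rw [← Real.rpow_natCast, Real.logb_rpow (by norm_num) (by norm_num)]
    rw [h5] at h4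
    exact h4
  have hnkq : (n : ℝ) / k ≤ q := by
    rw [div_le_iff₀ hk0]; linarith
  have hqnk : (q : ℝ) ≤ 2 * (n / k) := by
    rw [← mul_div_assoc, le_div_iff₀ hk0]; linarith
  have hnk0 : (0 : ℝ) ≤ n / k := by positivity
  refine ⟨L, q, r, by omega, hL8, hq1, hq2', hq3, Nat.div_mul_le_self _ _, ?_, ?_, ?_, ?_⟩
  · -- r large
    have h3 : ((L ^ 2 * q : ℕ) : ℝ) < (r + 1) * 2 ^ L := by
      have : L ^ 2 * q < (r + 1) * 2 ^ L := by
        have := Nat.lt_div_mul_add (a := L ^ 2 * q) (b := 2 ^ L) (by positivity)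
        rw [← hr] at this
        rw [add_mul, one_mul]; omega
      exact_mod_cast this
    push_cast at h3
    have h4 : (16 : ℝ) * q < (r + 1) * (16 * k) := by
      calc (16 : ℝ) * q ≤ L ^ 2 * q := by
            apply mul_le_mul_of_nonneg_right _ (by positivity)
            nlinarith
        _ < (r + 1) * 2 ^ L := h3
        _ ≤ (r + 1) * (16 * k) := by
            apply mul_le_mul_of_nonneg_left hLR16.le (by positivity)
    have h5 : (q : ℝ) < (r + 1) * k := by nlinarith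
    have h6 : (n : ℝ) < (r + 1) * k ^ 2 := by nlinarith
    have h7 : (n : ℝ) / (2 * k ^ 2) = n / k ^ 2 / 2 := by rw [div_div, mul_comm (2 : ℝ)]
    have h8 : (n : ℝ) / k ^ 2 < r + 1 := by
      rw [div_lt_iff₀ (by positivity)]; exact h6
    have h9 : (4 : ℝ) ≤ n / k ^ 2 := by
      rw [le_div_iff₀ (by positivity)]; exact hnR
    rw [h7]; linarith
  · have h3 : (L : ℝ) ^ 2 ≤ 25 * l ^ 2 := by
      have : (L : ℝ) ^ 2 ≤ (5 * l) ^ 2 := pow_le_pow_left₀ (by positivity) hLl 2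
      linarith [this, mul_pow (5 : ℝ) l 2]
    calc (20 * L ^ 2 * q + 2 : ℝ) ≤ 21 * (L ^ 2 * q) := by
          have : (2 : ℝ) ≤ L ^ 2 * q := by nlinarith
          linarith
      _ ≤ 21 * (25 * l ^ 2 * (2 * (n / k))) := by
          apply mul_le_mul_of_nonneg_left _ (by norm_num)
          exact mul_le_mul h3 hqnk (by positivity) (by positivity)
      _ = 1050 * l ^ 2 / k * n := by ring
  · calc l ^ 2 / k * n = l ^ 2 * (n / k) := by ring
      _ ≤ (L : ℝ) ^ 2 * q := by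
          apply mul_le_mul _ hnkq hnk0 (by positivity)
          exact pow_le_pow_left₀ (by linarith) hlL 2
      _ ≤ 5 * L ^ 2 * q := by nlinarith [sq_nonneg (L : ℝ)]
  · calc (2 * q + 1 : ℝ) ≤ 3 * q := by linarith
      _ ≤ 3 * (2 * (n / k)) := by linarith
      _ = 6 / k * n := by ring

/-- Existence of a hard formula, with natural numbers as parameters. -/
theorem hard_formula (k n L q r : ℕ) (hk : 1 ≤ k) (hn : 1 ≤ n) (hL4 : 4 ≤ L) (hL : 8 * k ≤ 2 ^ L)
    (hq : n ≤ k * q) (hq' : k * q ≤ 2 * n) (hq1 : 1 ≤ q) (hr : r * 2 ^ L ≤ L ^ 2 * q) :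
    ∃ φ : Fin (2 ^ k * q) → Clause k n,
      SumCorr (models φ) (2 ^ (5 * L ^ 2 * q)) (2 ^ r - 1) ∧
        2 ^ n ≤ 2 ^ (2 * q + 1) * (models φ).card := by
  obtain ⟨φ, h1, h2⟩ := exists_sformula k n q L hk hn hL hq hq'
  refine ⟨φ, ?_, h2⟩
  have hn2 : n ≤ 2 ^ L * q := hq.trans (Nat.mul_le_mul_right _ (by omega))
  refine sumCorr_of_sgridFree (B := 2 ^ (3 * L ^ 2 * q)) h1 (ball_card n q L (by omega) hn2) ?_
  have h3 : 2 * (2 ^ L) ^ 3 * 2 ^ (3 * L ^ 2 * q) * 2 ^ (r * 2 ^ L) =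
      2 ^ (1 + L * 3 + 3 * L ^ 2 * q + r * 2 ^ L) := by
    rw [pow_add, pow_add, pow_add, pow_one, ← pow_mul]
  rw [h3]
  apply Nat.pow_le_pow_right (by norm_num)
  have h4 : 1 + L * 3 ≤ L ^ 2 * q := by
    calc 1 + L * 3 ≤ L * 4 := by omega
      _ ≤ L * L := Nat.mul_le_mul_left _ hL4
      _ = L ^ 2 * 1 := by ring
      _ ≤ L ^ 2 * q := Nat.mul_le_mul_left _ hq1
  nlinarith

/-- From the integer inequality to the real one. -/
theorem to_real {n : ℕ} (A : Finset (X n)) (g : X n → ℕ) (κ r v : ℕ) (a b : ℝ)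
    (hr : (1 : ℝ) < r) (hb : b ≤ (r : ℝ) - 1) (ha : (4 * κ + 2 : ℝ) ≤ a)
    (h1 : (2 ^ r - 1) * (univ.filter fun x : X n => 0 < g x ∧ x ∈ A).card ≤
      (2 ^ r - 1) * (2 ^ (4 * κ + 2) * (v + 1)) + ∑ x ∈ univ.filter (fun x : X n => x ∉ A), g x) :
    ((univ.filter fun x : X n => 0 < g x ∧ x ∈ A).card : ℝ) ≤
      (2 : ℝ) ^ a * (v + 1) +
        (2 : ℝ) ^ (-b) * ∑ x ∈ univ.filter (fun x : X n => x ∉ A), (g x : ℝ) := by
  have hr2' : 1 < r := by exact_mod_cast hr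
  have hN : (2 : ℕ) ^ (r - 1) ≤ 2 ^ r - 1 := by
    have : (2 : ℕ) ^ r = 2 ^ (r - 1) * 2 := by
      rw [← pow_succ]; congr 1; omega
    have h3 : 1 ≤ (2 : ℕ) ^ (r - 1) := Nat.one_le_two_pow
    omega
  set N := 2 ^ r - 1 with hNdef
  have hNpos : 0 < N := lt_of_lt_of_le (by positivity) hN
  have hNR : (2 : ℝ) ^ b ≤ N := by
    calc (2 : ℝ) ^ b ≤ (2 : ℝ) ^ ((r : ℝ) - 1) :=
          Real.rpow_le_rpow_of_exponent_le (by norm_num) hb
      _ = ((2 ^ (r - 1) : ℕ) : ℝ) := by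
          push_cast
          rw [← Real.rpow_natCast]
          congr 1
          rw [Nat.cast_sub (by omega)]; simp
      _ ≤ N := by exact_mod_cast hN
  have hNR0 : (0 : ℝ) < N := by exact_mod_cast hNpos
  have h2 : (N : ℝ) * ((univ.filter fun x : X n => 0 < g x ∧ x ∈ A).card : ℝ) ≤
      N * (2 ^ (4 * κ + 2) * (v + 1)) +
        ∑ x ∈ univ.filter (fun x : X n => x ∉ A), (g x : ℝ) := by
    exact_mod_cast h1
  have h3 : ((univ.filter fun x : X n => 0 < g x ∧ x ∈ A).card : ℝ) ≤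
      2 ^ (4 * κ + 2) * (v + 1) +
        (N : ℝ)⁻¹ * ∑ x ∈ univ.filter (fun x : X n => x ∉ A), (g x : ℝ) := by
    have h4 : (N : ℝ)⁻¹ * (N * ((univ.filter fun x : X n => 0 < g x ∧ x ∈ A).card : ℝ)) ≤
        (N : ℝ)⁻¹ * (N * (2 ^ (4 * κ + 2) * (v + 1)) +
        ∑ x ∈ univ.filter (fun x : X n => x ∉ A), (g x : ℝ)) :=
      mul_le_mul_of_nonneg_left h2 (by positivity)
    rw [inv_mul_cancel_left₀ hNR0.ne', mul_add, inv_mul_cancel_left₀ hNR0.ne'] at h4
    exact h4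
  refine h3.trans (add_le_add ?_ ?_)
  · apply mul_le_mul_of_nonneg_right _ (by positivity)
    rw [← Real.rpow_natCast]
    apply Real.rpow_le_rpow_of_exponent_le (by norm_num)
    push_cast
    exact ha
  · apply mul_le_mul_of_nonneg_right _ (Finset.sum_nonneg fun _ _ => by positivity)
    rw [Real.rpow_neg (by norm_num)]
    exact inv_anti₀ (by positivity) hNR

theorem main (k n : ℕ) (hk : 2 ≤ k) (hn : 4 * k ^ 2 ≤ n) :
    ∃ (m : ℕ) (φ : Fin m → Clause k n), m ≤ 2 ^ k * n ∧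
      (2 : ℝ) ^ ((1 - 6 / (k : ℝ)) * n) ≤ (models φ).card ∧
      (∀ (s : ℕ) (D : Program n s (2 ^ (Real.logb 2 k ^ 2 / k * n))), ∀ v < s,
        ((univ.filter fun x : X n => 0 < D.g v x ∧ x ∈ models φ).card : ℝ) ≤
          (2 : ℝ) ^ (1050 * Real.logb 2 k ^ 2 / k * n) * (v + 1) +
            (2 : ℝ) ^ (-((n : ℝ) / (2 * k ^ 2))) *
              ∑ x ∈ univ.filter (fun x : X n => x ∉ models φ), (D.g v x : ℝ)) ∧
      (∀ (s : ℕ) (D : XorProgram n s (2 ^ (Real.logb 2 k ^ 2 / k * n))), ∀ v < s,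
        ((univ.filter fun x : X n => 0 < D.g v x ∧ x ∈ models φ).card : ℝ) ≤
          (2 : ℝ) ^ (1050 * Real.logb 2 k ^ 2 / k * n) * (v + 1) +
            (2 : ℝ) ^ (-((n : ℝ) / (2 * k ^ 2))) *
              ∑ x ∈ univ.filter (fun x : X n => x ∉ models φ), (D.g v x : ℝ)) := by
  obtain ⟨L, q, r, hL4, hL8, hq, hq', hq1, hr, hr1, hkap, hleaf, hmod⟩ := params k n hk hn
  have hk0 : (0 : ℝ) < k := by positivity
  have hn1 : 1 ≤ n := by nlinarith
  obtain ⟨φ, hS, hcard⟩ := hard_formula k n L q r (by omega) hn1 hL4 hL8 hq hq' hq1 hr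
  have hC := corr_of_sumCorr hS
  set κ := 5 * L ^ 2 * q with hκ
  have hW : (2 : ℝ) ^ (Real.logb 2 k ^ 2 / k * n) ≤ ((2 ^ κ : ℕ) : ℝ) := by
    push_cast
    rw [← Real.rpow_natCast (2 : ℝ) κ]
    apply Real.rpow_le_rpow_of_exponent_le (by norm_num)
    rw [hκ]; push_cast
    exact hleaf
  have hr2 : (1 : ℝ) < r := by
    have : (0 : ℝ) < n / (2 * k ^ 2) := by positivity
    linarith
  have hκa : (4 * κ + 2 : ℝ) ≤ 1050 * Real.logb 2 k ^ 2 / k * n := by
    rw [hκ]; push_cast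
    linarith
  refine ⟨2 ^ k * q, φ, ?_, ?_, ?_, ?_⟩
  · apply Nat.mul_le_mul_left
    have : 2 * q ≤ k * q := Nat.mul_le_mul_right _ hk
    omega
  · have h1 : (2 : ℝ) ^ (n : ℝ) ≤ 2 ^ ((2 * q + 1 : ℝ)) * (models φ).card := by
      have h2 : ((2 ^ n : ℕ) : ℝ) ≤ ((2 ^ (2 * q + 1) * (models φ).card : ℕ) : ℝ) := by
        exact_mod_cast hcard
      push_cast at h2
      rw [Real.rpow_natCast, show (2 * q + 1 : ℝ) = ((2 * q + 1 : ℕ) : ℝ) by push_cast; ring,
        Real.rpow_natCast]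
      exact h2
    have h3 : (2 : ℝ) ^ ((1 - 6 / (k : ℝ)) * n) * 2 ^ ((2 * q + 1 : ℝ)) ≤
        2 ^ ((2 * q + 1 : ℝ)) * (models φ).card := by
      refine le_trans ?_ h1
      rw [← Real.rpow_add (by norm_num)]
      apply Real.rpow_le_rpow_of_exponent_le (by norm_num)
      linarith
    rw [mul_comm] at h3
    exact le_of_mul_le_mul_left h3 (by positivity)
  · intro s D v hv
    obtain ⟨E, hE, hEK, hEt, hEg⟩ := D.exists_circ hW hv
    have h1 := Circ.bound hE hEK hC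
    rw [hEt, hEg] at h1
    exact to_real _ _ κ r v _ _ hr2 hr1 hκa h1
  · intro s D v hv
    obtain ⟨E, hE, hEK, hEt, hEg⟩ := D.exists_scirc hW hv
    have h1 := SCirc.bound hE hEK hS
    rw [hEt, hEg] at h1
    refine to_real _ _ κ r v _ _ hr2 hr1 hκa (h1.trans ?_)
    apply Nat.add_le_add_right
    apply Nat.mul_le_mul_left
    apply Nat.mul_le_mul_right
    exact Nat.pow_le_pow_right (by norm_num) (by omega)

end Pool.Agent.Helper83.SETH
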