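import Pool.Agent.Helper83.SETH.Defs

/-!
Elementary facts about masks, and the two counting lemmas for sets with free variables.
-/

namespace Pool.Agent.Helper83.SETH

open Finset

variable {n : ℕ}

theorem mask_apply (P : Finset (Fin n)) (x : X n) (i : Fin n) :
    mask P x i = if i ∈ P then x i else false := rfl

theorem mask_apply_of_mem {P : Finset (Fin n)} {x : X n} {i : Fin n} (h : i ∈ P) :
    mask P x i = x i := by simp [mask, h]

theorem mask_apply_of_not_mem {P : Finset (Fin n)} {x : X n} {i : Fin n} (h : i ∉ P) :
    mask P x i = false := by simp [mask, h]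

theorem mask_eq_mask {P : Finset (Fin n)} {x y : X n} :
    mask P x = mask P y ↔ ∀ i ∈ P, x i = y i := by
  constructor
  · intro h i hi
    have := congrFun h i
    simpa [mask, hi] using this
  · intro h
    funext i
    by_cases hi : i ∈ P
    · simp [mask, hi, h i hi]
    · simp [mask, hi]

theorem mask_mask_of_subset {P Q : Finset (Fin n)} (h : P ⊆ Q) (x : X n) :
    mask P (mask Q x) = mask P x := by
  rw [mask_eq_mask]
  intro i hi
  simp [mask, h hi]

theorem mask_idem (P : Finset (Fin n)) (x : X n) : mask P (mask P x) = mask P x :=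
  mask_mask_of_subset (Finset.Subset.refl P) x

theorem mask_fixed_iff {P : Finset (Fin n)} {x : X n} :
    mask P x = x ↔ ∀ i ∉ P, x i = false := by
  constructor
  · intro h i hi
    have := congrFun h i
    simpa [mask, hi] using this.symm
  · intro h
    funext i
    by_cases hi : i ∈ P
    · simp [mask, hi]
    · simp [mask, hi, h i hi]

theorem card_fixed (F : Finset (Fin n)) :
    (univ.filter fun x : X n => mask F x = x).card = 2 ^ F.card := by
  have h : (univ.filter fun x : X n => mask F x = x) =
      Fintype.piFinset (fun i : Fin n => if i ∈ F then (univ : Finset Bool) else {false}) := by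
    ext x
    simp only [mem_filter, mem_univ, true_and, Fintype.mem_piFinset, mask_fixed_iff]
    constructor
    · intro h i
      by_cases hi : i ∈ F
      · simp [hi]
      · simp [hi, h i hi]
    · intro h i hi
      have := h i
      simpa [hi] using this
  rw [h, Fintype.card_piFinset]
  have : ∀ i : Fin n, ((if i ∈ F then (univ : Finset Bool) else {false}) : Finset Bool).card =
      if i ∈ F then 2 else 1 := by
    intro i; by_cases hi : i ∈ F <;> simp [hi]
  rw [Finset.prod_congr rfl (fun i _ => this i), Finset.prod_ite]
  simp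

/-- Counting with free variables. -/
theorem slack_count {P Q : Finset (Fin n)} (C M : Finset (X n)) :
    (univ.filter fun x : X n => mask Qᶜ x ∈ C ∧ mask P x ∈ M).card ≤
      C.card * M.card * 2 ^ (Q \ P).card := by
  rw [← card_fixed (Q \ P), mul_assoc, ← Finset.card_product, ← Finset.card_product]
  apply Finset.card_le_card_of_injOn (fun x => (mask Qᶜ x, mask P x, mask (Q \ P) x))
  · intro x hx
    simp only [coe_filter, mem_univ, true_and, Set.mem_ofPred_eq] at hx
    simp only [coe_product, Set.mem_prod, mem_coe, mem_filter, mem_univ, true_and]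
    exact ⟨hx.1, hx.2, mask_idem _ _⟩
  · intro x _ y _ hxy
    simp only [Prod.mk.injEq] at hxy
    obtain ⟨h1, h2, h3⟩ := hxy
    funext i
    rw [mask_eq_mask] at h1 h2 h3
    by_cases hQ : i ∈ Q
    · by_cases hP : i ∈ P
      · exact h2 i hP
      · exact h3 i (by simp [hQ, hP])
    · exact h1 i (by simp [hQ])

/-- Counting at a decomposable AND gate. -/
theorem and_count {P Q : Finset (Fin n)} (C M M' : Finset (X n)) :
    (univ.filter fun x : X n => mask (P ∪ Q)ᶜ x ∈ C ∧ mask P x ∈ M ∧ mask Q x ∈ M').card ≤
      C.card * (M.card * M'.card) := by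
  rw [← Finset.card_product, ← Finset.card_product]
  apply Finset.card_le_card_of_injOn (fun x => (mask (P ∪ Q)ᶜ x, mask P x, mask Q x))
  · intro x hx
    simp only [coe_filter, mem_univ, true_and, Set.mem_ofPred_eq] at hx
    simp only [coe_product, Set.mem_prod, mem_coe]
    exact ⟨hx.1, hx.2.1, hx.2.2⟩
  · intro x _ y _ hxy
    simp only [Prod.mk.injEq] at hxy
    obtain ⟨h1, h2, h3⟩ := hxy
    funext i
    rw [mask_eq_mask] at h1 h2 h3
    by_cases hP : i ∈ P
    · exact h2 i hP
    · by_cases hQ : i ∈ Q
      · exact h3 i hQ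
      · exact h1 i (by simp [hP, hQ])

/-- A set with many free variables is a large rectangle. -/
theorem slack_rect {A : Finset (X n)} {κ N : ℕ} (hA : Corr A (2 ^ κ) N)
    {P Q : Finset (Fin n)} (hPQ : P ⊆ Q) (C M : Finset (X n))
    (hC : ∀ c ∈ C, mask Qᶜ c = c) (hM : ∀ y ∈ M, mask P y = y)
    (hF : 2 * κ + 1 < (Q \ P).card) :
    N * (univ.filter fun x : X n => (mask Qᶜ x ∈ C ∧ mask P x ∈ M) ∧ x ∈ A).card ≤
      (univ.filter fun x : X n => (mask Qᶜ x ∈ C ∧ mask P x ∈ M) ∧ x ∉ A).card := by
  rcases C.eq_empty_or_nonempty with rfl | ⟨c0, hc0⟩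
  · simp
  rcases M.eq_empty_or_nonempty with rfl | ⟨m0, hm0⟩
  · simp
  obtain ⟨F1, hF1s, hF1c⟩ := Finset.exists_subset_card_eq (s := Q \ P) (n := κ + 1) (by omega)
  -- the partition
  set P' : Finset (Fin n) := Q \ F1 with hP'
  have hPP' : P ⊆ P' := by
    intro i hi
    rw [hP', mem_sdiff]
    exact ⟨hPQ hi, fun h => (mem_sdiff.mp (hF1s h)).2 hi⟩
  have hQP' : Qᶜ ⊆ P'ᶜ := by
    intro i hi
    simp only [hP', mem_compl, mem_sdiff] at *
    tauto
  set U : Finset (X n) := univ.filter fun x : X n => mask P' x = x ∧ mask P x ∈ M with hU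
  set V : Finset (X n) := univ.filter fun x : X n => mask P'ᶜ x = x ∧ mask Qᶜ x ∈ C with hV
  have key : ∀ x : X n, (mask Qᶜ x ∈ C ∧ mask P x ∈ M) ↔ (mask P' x ∈ U ∧ mask P'ᶜ x ∈ V) := by
    intro x
    simp only [hU, hV, mem_filter, mem_univ, true_and, mask_idem, mask_mask_of_subset hPP',
      mask_mask_of_subset hQP']
    tauto
  have hUc : 2 ^ κ < U.card := by
    have h1 : (univ.filter fun x : X n => mask ((Q \ P) \ F1) x = x).card ≤ U.card := by
      apply Finset.card_le_card_of_injOn (fun y => fun i => m0 i || y i)
      · intro y hy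
        simp only [coe_filter, mem_univ, true_and, Set.mem_ofPred_eq] at hy
        simp only [hU, coe_filter, mem_univ, true_and, Set.mem_ofPred_eq]
        rw [mask_fixed_iff] at hy
        have hm := mask_fixed_iff.mp (hM m0 hm0)
        constructor
        · rw [mask_fixed_iff]
          intro i hi
          have hiP : i ∉ P := fun h => hi (hPP' h)
          have hi2 : i ∉ (Q \ P) \ F1 := by
            simp only [hP', mem_sdiff] at hi ⊢
            tauto
          simp [hm i hiP, hy i hi2]
        · have : mask P (fun i => m0 i || y i) = m0 := by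
            funext i
            by_cases hi : i ∈ P
            · have : i ∉ (Q \ P) \ F1 := by simp [hi]
              simp [mask, hi, hy i this]
            · simp [mask, hi, hm i hi]
          rw [this]; exact hm0
      · intro y hy z hz hyz
        simp only [coe_filter, mem_univ, true_and, Set.mem_ofPred_eq] at hy hz
        rw [mask_fixed_iff] at hy hz
        have hm := mask_fixed_iff.mp (hM m0 hm0)
        funext i
        by_cases hi : i ∈ (Q \ P) \ F1
        · have hiP : i ∉ P := (mem_sdiff.mp (mem_sdiff.mp hi).1).2
          have := congrFun hyz i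
          simpa [hm i hiP] using this
        · rw [hy i hi, hz i hi]
    rw [card_fixed] at h1
    have h2 : κ + 1 ≤ ((Q \ P) \ F1).card := by
      rw [Finset.card_sdiff_of_subset hF1s]; omega
    calc 2 ^ κ < 2 ^ (κ + 1) := Nat.pow_lt_pow_right (by norm_num) (Nat.lt_succ_self _)
      _ ≤ 2 ^ ((Q \ P) \ F1).card := Nat.pow_le_pow_right (by norm_num) h2
      _ ≤ U.card := h1
  have hVc : 2 ^ κ < V.card := by
    have h1 : (univ.filter fun x : X n => mask F1 x = x).card ≤ V.card := by
      apply Finset.card_le_card_of_injOn (fun y => fun i => c0 i || y i)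
      · intro y hy
        simp only [coe_filter, mem_univ, true_and, Set.mem_ofPred_eq] at hy
        simp only [hV, coe_filter, mem_univ, true_and, Set.mem_ofPred_eq]
        rw [mask_fixed_iff] at hy
        have hm := mask_fixed_iff.mp (hC c0 hc0)
        constructor
        · rw [mask_fixed_iff]
          intro i hi
          have hiP : i ∉ Qᶜ := fun h => hi (hQP' h)
          have hi2 : i ∉ F1 := by
            simp only [hP', mem_compl, mem_sdiff] at hi
            tauto
          simp [hm i hiP, hy i hi2]
        · have : mask Qᶜ (fun i => c0 i || y i) = c0 := by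
            funext i
            by_cases hi : i ∈ Qᶜ
            · have : i ∉ F1 := fun h => by
                have := (mem_sdiff.mp (hF1s h)).1
                exact (mem_compl.mp hi) this
              rw [mask_apply_of_mem hi]
              simp [hy i this]
            · rw [mask_apply_of_not_mem hi]; simp [hm i hi]
          rw [this]; exact hc0
      · intro y hy z hz hyz
        simp only [coe_filter, mem_univ, true_and, Set.mem_ofPred_eq] at hy hz
        rw [mask_fixed_iff] at hy hz
        have hm := mask_fixed_iff.mp (hC c0 hc0)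
        funext i
        by_cases hi : i ∈ F1
        · have hiP : i ∉ Qᶜ := fun h => (mem_compl.mp h) (mem_sdiff.mp (hF1s hi)).1
          have := congrFun hyz i
          simpa [hm i hiP] using this
        · rw [hy i hi, hz i hi]
    rw [card_fixed, hF1c] at h1
    calc 2 ^ κ < 2 ^ (κ + 1) := Nat.pow_lt_pow_right (by norm_num) (Nat.lt_succ_self _)
      _ ≤ V.card := h1
  have hU' : ∀ u ∈ U, mask P' u = u := fun u hu => (mem_filter.mp hu).2.1
  have hV' : ∀ v ∈ V, mask P'ᶜ v = v := fun v hv => (mem_filter.mp hv).2.1
  have := hA P' U V hU' hV' hUc hVc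
  simpa only [key] using this

end Pool.Agent.Helper83.SETH
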