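import Pool.Agent.Helper83.SETH.Circuit

/-!
Decomposable straight-line programs, and their conversion to the circuits of the proof.
-/

namespace Pool.Agent.Helper83.SETH

open Finset

namespace Program

variable {n s : ℕ} {W : ℝ} (D : Program n s W)

theorem local_g : ∀ v < s, ∀ x y : X n, (∀ i ∈ D.S v, x i = y i) → D.g v x = D.g v y := by
  intro v
  induction v using Nat.strong_induction_on with
  | _ v ih =>
    intro hv x y hxy
    rcases D.rule v hv with ⟨f, h1, _, h3⟩ | ⟨a, b, ha, hb, hS, hg⟩ | ⟨a, b, ha, hb, hS, _, hg⟩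
    · rw [h3, h3, h1 x y hxy]
    · rw [hg, hg, ih a ha (by omega) x y (fun i hi => hxy i (by rw [hS]; exact mem_union_left _ hi)),
        ih b hb (by omega) x y (fun i hi => hxy i (by rw [hS]; exact mem_union_right _ hi))]
    · rw [hg, hg, ih a ha (by omega) x y (fun i hi => hxy i (by rw [hS]; exact mem_union_left _ hi)),
        ih b hb (by omega) x y (fun i hi => hxy i (by rw [hS]; exact mem_union_right _ hi))]

theorem exists_circ {K : ℕ} (hW : W ≤ K) {v : ℕ} (hv : v < s) :
    ∃ E : Circ n, E.Valid ∧ E.K = K ∧ E.top = v ∧ E.g = D.g := by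
  classical
  let MM : ℕ → Finset (X n) := fun u => (univ.filter fun x => 0 < D.g u x).image (mask (D.S u))
  have hex : ∀ u, ∃ k : Kd, u ≤ v → (match k with
      | .leaf => (MM u).card ≤ K
      | .or a b => a < u ∧ b < u ∧ D.S a ⊆ D.S u ∧ D.S b ⊆ D.S u ∧
          ∀ x, D.g u x = D.g a x + D.g b x
      | .and a b => a < u ∧ b < u ∧ D.S u = D.S a ∪ D.S b ∧ Disjoint (D.S a) (D.S b) ∧
          (∀ x, D.g u x = D.g a x * D.g b x) ∧ (MM b).card ≤ (MM a).card) := by
    intro u
    by_cases hu : u ≤ v
    · rcases D.rule u (by omega) with ⟨f, h1, h2, h3⟩ | ⟨a, b, ha, hb, hS, hg⟩ |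
        ⟨a, b, ha, hb, hS, hd, hg⟩
      · refine ⟨.leaf, fun _ => ?_⟩
        simp only
        have hsub : MM u ⊆ univ.filter fun x : Fin n → Bool => f x = true ∧
            ∀ i ∉ D.S u, x i = false := by
          intro y hy
          obtain ⟨x, hx, rfl⟩ := mem_image.mp hy
          simp only [mem_filter, mem_univ, true_and] at hx ⊢
          have hfx : f x = true := by
            by_contra hcon
            rw [h3 x, if_neg hcon] at hx
            exact lt_irrefl _ hx
          refine ⟨?_, fun i hi => mask_apply_of_not_mem hi⟩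
          rw [h1 (mask (D.S u) x) x (fun i hi => mask_apply_of_mem hi)]
          exact hfx
        have := (Finset.card_le_card hsub)
        have h4 : ((MM u).card : ℝ) ≤ K := by
          refine le_trans ?_ (h2.trans hW)
          exact_mod_cast this
        exact_mod_cast h4
      · refine ⟨.or a b, fun _ => ?_⟩
        simp only
        exact ⟨ha, hb, by rw [hS]; exact subset_union_left, by rw [hS]; exact subset_union_right, hg⟩
      · by_cases hM : (MM b).card ≤ (MM a).card
        · refine ⟨.and a b, fun _ => ?_⟩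
          simp only
          exact ⟨ha, hb, hS, hd, hg, hM⟩
        · refine ⟨.and b a, fun _ => ?_⟩
          simp only
          exact ⟨hb, ha, by rw [hS, union_comm], hd.symm, fun x => by rw [hg, mul_comm], by omega⟩
    · exact ⟨.leaf, fun h => absurd h hu⟩
  choose kd hkd using hex
  refine ⟨⟨D.S, D.g, kd, K, v⟩, ⟨?_, ?_⟩, rfl, rfl, rfl⟩
  · intro u hu x y hxy
    exact D.local_g u (lt_of_le_of_lt hu hv) x y hxy
  · intro u hu
    exact hkd u hu

end Program

end Pool.Agent.Helper83.SETH
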