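import Pool.Agent.Helper83.SETH.Xor
import Pool.Agent.Helper83.SETH.Circuit

/-!
The path argument for circuits over `(ℕ[F_2^n], +, *)` (sums and XOR-convolutions).
-/

namespace Pool.Agent.Helper83.SETH

open Finset

/-- Affine subspaces of `F_2^n`. -/
def Aff {n : ℕ} (H : Finset (X n)) : Prop := ∀ x ∈ H, ∀ y ∈ H, ∀ z ∈ H, xr (xr x y) z ∈ H

/-- A circuit (in the proof): values and kinds of gates. -/
structure SCirc (n : ℕ) where
  g : ℕ → X n → ℕ
  kd : ℕ → Kd
  K : ℕ
  top : ℕ

/-- Affine subspaces are corrupted. -/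
theorem aff_corr {n : ℕ} {A : Finset (X n)} {K N : ℕ} (hA : SumCorr A K N) {H : Finset (X n)}
    (hH : Aff H) (hK : K < H.card) (c : X n) :
    N * (H.filter fun y => xr c y ∈ A).card ≤ (H.filter fun y => xr c y ∉ A).card := by
  classical
  obtain ⟨h0, hh0⟩ : H.Nonempty := card_pos.mp (by omega)
  set U := H.image (xr c) with hU
  set V := H.image (xr h0) with hV
  have hUc : U.card = H.card := card_image_of_injective _ (fun a b h => xr_inj_left h)
  have hVc : V.card = H.card := card_image_of_injective _ (fun a b h => xr_inj_left h)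
  have key : ∀ (Q : X n → Prop) [DecidablePred Q],
      ((U ×ˢ V).filter fun p => Q (xr p.1 p.2)).card =
        H.card * (H.filter fun y => Q (xr c y)).card := by
    intro Q _
    rw [← Finset.card_product]
    symm
    apply Finset.card_nbij' (fun p => (xr c p.1, xr p.1 p.2))
      (fun p => (xr c p.1, xr (xr c p.1) p.2))
    · intro p hp
      simp only [coe_product, Set.mem_prod, mem_coe, mem_filter] at hp
      simp only [coe_filter, mem_product, Set.mem_ofPred_eq]
      refine ⟨⟨mem_image_of_mem _ hp.1, ?_⟩, ?_⟩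
      · rw [hV, mem_image]
        refine ⟨xr (xr h0 p.1) p.2, hH _ hh0 _ hp.1 _ hp.2.1, ?_⟩
        rw [xr_assoc, xr_xr_cancel_left]
      · rw [xr_assoc, xr_xr_cancel_left]
        exact hp.2.2
    · intro p hp
      simp only [coe_filter, mem_product, Set.mem_ofPred_eq] at hp
      obtain ⟨⟨h1, h2⟩, h3⟩ := hp
      rw [hU, mem_image] at h1
      rw [hV, mem_image] at h2
      obtain ⟨a, ha, ha'⟩ := h1
      obtain ⟨b, hb, hb'⟩ := h2
      simp only [coe_product, Set.mem_prod, mem_coe, mem_filter]
      rw [← ha', ← hb'] at h3 ⊢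
      rw [xr_xr_cancel_left]
      rw [← xr_assoc] at h3 ⊢
      refine ⟨ha, hH _ ha _ hh0 _ hb, ?_⟩
      have : xr c (xr (xr a h0) b) = xr (xr (xr c a) h0) b := by
        rw [← xr_assoc, ← xr_assoc]
      rw [this]; exact h3
    · intro p _
      simp only
      rw [xr_xr_cancel_left, xr_xr_cancel_left]
    · intro p _
      simp only
      rw [xr_xr_cancel_left, xr_xr_cancel_left]
  have h1 := hA U V (by omega) (by omega)
  rw [key (fun x => x ∈ A), key (fun x => x ∉ A)] at h1
  have h2 : H.card * (N * (H.filter fun y => xr c y ∈ A).card) ≤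
      H.card * (H.filter fun y => xr c y ∉ A).card := by
    calc H.card * (N * (H.filter fun y => xr c y ∈ A).card)
        = N * (H.card * (H.filter fun y => xr c y ∈ A).card) := by ring
      _ ≤ _ := h1
  exact Nat.le_of_mul_le_mul_left h2 (by omega)

namespace SCirc

variable {n : ℕ} (D : SCirc n)

/-- The support of the gate `v`. -/
def M (v : ℕ) : Finset (X n) := univ.filter fun x => 0 < D.g v x

theorem mem_M {v : ℕ} {x : X n} : x ∈ D.M v ↔ 0 < D.g v x := by simp [M]

def RuleAt (v : ℕ) : Prop :=
  match D.kd v with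
  | .leaf => (D.M v).card ≤ D.K ∨ Aff (D.M v)
  | .or a b => a < v ∧ b < v ∧ ∀ x, D.g v x = D.g a x + D.g b x
  | .and a b => a < v ∧ b < v ∧ (∀ x, D.g v x = ∑ y, D.g b y * D.g a (xr x y)) ∧
      (D.M b).card ≤ (D.M a).card

def Valid : Prop := ∀ v ≤ D.top, D.RuleAt v

open Classical in
/-- The chosen part of `u` at the sibling. -/
noncomputable def sp (a b : ℕ) (u : X n) : X n :=
  if h : ∃ w, 0 < D.g b w ∧ 0 < D.g a (xr u w) then h.choose else fun _ => false

theorem sp_spec {a b : ℕ} {u : X n} (h : 0 < ∑ y, D.g b y * D.g a (xr u y)) :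
    0 < D.g b (D.sp a b u) ∧ 0 < D.g a (xr u (D.sp a b u)) := by
  have hex : ∃ w, 0 < D.g b w ∧ 0 < D.g a (xr u w) := by
    by_contra hcon
    push Not at hcon
    have : ∑ y, D.g b y * D.g a (xr u y) = 0 := by
      apply Finset.sum_eq_zero
      intro y _
      rcases Nat.eq_zero_or_pos (D.g b y) with h1 | h1
      · rw [h1, zero_mul]
      · have := hcon y h1
        rw [Nat.le_zero.mp this, mul_zero]
    omega
  unfold sp
  rw [dif_pos hex]
  exact hex.choose_spec

theorem conv_pos {a b : ℕ} {u w : X n} (hw : 0 < D.g b w) (hu : 0 < D.g a u) :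
    0 < ∑ y, D.g b y * D.g a (xr (xr u w) y) := by
  apply Finset.sum_pos' (fun _ _ => Nat.zero_le _)
  refine ⟨w, mem_univ _, ?_⟩
  rw [xr_xr_cancel_right]
  exact Nat.mul_pos hw hu

/-- The next gate and the next element on the canonical path. -/
noncomputable def next (v : ℕ) (u : X n) : ℕ × X n :=
  match D.kd v with
  | .leaf => (v, u)
  | .or a b => if 0 < D.g a u then (a, u) else (b, u)
  | .and a b => (a, xr u (D.sp a b u))

def ctxOf (Z : Finset (X n × X n)) : Finset (X n) := Z.image fun p => xr p.1 p.2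

open Classical in
/-- The pairs `(x, u)` such that the canonical path of `x` reaches `v` with the element `u`. -/
noncomputable def act (v : ℕ) : Finset (X n × X n) :=
  if v = D.top then univ.filter (fun p => p.1 = p.2 ∧ 0 < D.g D.top p.1)
  else univ.filter (fun p => ∃ e : {e : ℕ // v < e ∧ e ≤ D.top}, ∃ u' : X n,
      (p.1, u') ∈ act e.1 ∧ (ctxOf (act e.1)).card ≤ D.K ∧ D.next e.1 u' = (v, p.2) ∧
        D.K < (D.M v).card)
termination_by D.top - v
decreasing_by all_goals (have := e.2; omega)

noncomputable def ctx (v : ℕ) : Finset (X n) := ctxOf (D.act v)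

theorem mem_act_top {p : X n × X n} : p ∈ D.act D.top ↔ p.1 = p.2 ∧ 0 < D.g D.top p.1 := by
  rw [act]; simp

theorem mem_act {v : ℕ} (h : v ≠ D.top) {x u : X n} :
    (x, u) ∈ D.act v ↔ ∃ p, v < p ∧ p ≤ D.top ∧ ∃ u', (x, u') ∈ D.act p ∧
      (D.ctx p).card ≤ D.K ∧ D.next p u' = (v, u) ∧ D.K < (D.M v).card := by
  rw [act, if_neg h]
  simp only [mem_filter, mem_univ, true_and, Subtype.exists, ctx]
  constructor
  · rintro ⟨p, hp, u', h1, h2, h3, h4⟩
    exact ⟨p, hp.1, hp.2, u', h1, h2, h3, h4⟩
  · rintro ⟨p, hp1, hp2, u', h1, h2, h3, h4⟩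
    exact ⟨p, ⟨hp1, hp2⟩, u', h1, h2, h3, h4⟩

theorem act_le {v : ℕ} {x u : X n} (h : (x, u) ∈ D.act v) : v ≤ D.top := by
  by_cases hv : v = D.top
  · exact hv.le
  · obtain ⟨p, h1, h2, _⟩ := (D.mem_act hv).mp h
    omega

theorem act_K {v : ℕ} {x u : X n} (h : (x, u) ∈ D.act v) (hv : v ≠ D.top) :
    D.K < (D.M v).card := by
  obtain ⟨p, _, _, _, _, _, _, h6⟩ := (D.mem_act hv).mp h
  exact h6

variable {D}

theorem step_prop (hV : D.Valid) {p : ℕ} (hp : p ≤ D.top) {u' : X n} (hx : 0 < D.g p u')
    (hne : (D.next p u').1 < p) : 0 < D.g (D.next p u').1 (D.next p u').2 := by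
  have hr := hV p hp
  unfold RuleAt at hr
  unfold next at hne ⊢
  rcases hk : D.kd p with _ | ⟨a, b⟩ | ⟨a, b⟩
  · rw [hk] at hne; simp at hne
  · rw [hk] at hr hne
    simp only at hr hne ⊢
    obtain ⟨_, _, h5⟩ := hr
    split_ifs with h
    · exact h
    · have := h5 u'
      simp only
      omega
  · rw [hk] at hr hne
    simp only at hr hne ⊢
    obtain ⟨_, _, h5, _⟩ := hr
    rw [h5 u'] at hx
    exact (D.sp_spec hx).2

theorem act_pos (hV : D.Valid) : ∀ (d v : ℕ), D.top - v = d → ∀ x u, (x, u) ∈ D.act v →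
    0 < D.g v u := by
  intro d
  induction d using Nat.strong_induction_on with
  | _ d ih =>
    intro v hd x u hx
    by_cases hv : v = D.top
    · subst hv
      have := D.mem_act_top.mp hx
      simp only at this
      rw [← this.1]; exact this.2
    · obtain ⟨p, h1, h2, u', h3, h4, h5, h6⟩ := (D.mem_act hv).mp hx
      have hpos := ih (D.top - p) (by omega) p rfl x u' h3
      have := step_prop hV h2 hpos (by rw [h5]; exact h1)
      rw [h5] at this
      exact this

theorem act_pos' (hV : D.Valid) {v : ℕ} {x u : X n} (hx : (x, u) ∈ D.act v) : 0 < D.g v u :=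
  act_pos hV _ v rfl x u hx

variable (D)

/-- Gates where the paths stop. -/
def Stop (v : ℕ) : Prop := D.K < (D.ctx v).card ∨ D.kd v = .leaf

def shift (w : X n) (e : ℕ × X n × X n) : ℕ × X n × X n := (e.1, xr e.2.1 w, e.2.2)

open Classical in
/-- The items reachable from `v` for the element `u` by unstopped rule paths. -/
noncomputable def L (v : ℕ) (u : X n) : Finset (ℕ × X n × X n) :=
  if D.Stop v then (if 0 < D.g v u then {(v, (fun _ => false), u)} else ∅)
  else match D.kd v with
    | .leaf => ∅
    | .or a b =>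
      (if _h : a < v ∧ D.K < (D.M a).card then L a u else ∅) ∪
      (if _h : b < v ∧ D.K < (D.M b).card then L b u else ∅)
    | .and a b => if _h : a < v ∧ D.K < (D.M a).card then
        (D.M b).biUnion (fun w => (L a (xr u w)).image (shift w)) else ∅
termination_by v
decreasing_by
  · exact _h.1
  · exact _h.1
  · exact _h.1

variable {D}

theorem L_card (hV : D.Valid) : ∀ v ≤ D.top, ∀ u : X n, (D.L v u).card ≤ D.g v u := by
  intro v
  induction v using Nat.strong_induction_on with
  | _ v ih =>
    intro hv u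
    have hr := hV v hv
    unfold RuleAt at hr
    rw [L]
    by_cases hst : D.Stop v
    · rw [if_pos hst]
      split_ifs with h
      · rw [card_singleton]; exact h
      · simp
    · rw [if_neg hst]
      rcases hk : D.kd v with _ | ⟨a, b⟩ | ⟨a, b⟩
      · simp
      · rw [hk] at hr
        simp only at hr ⊢
        obtain ⟨h1, h2, h5⟩ := hr
        rw [h5 u]
        refine (card_union_le _ _).trans (add_le_add ?_ ?_)
        · split_ifs with h
          · exact ih a h1 (by omega) u
          · simp
        · split_ifs with h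
          · exact ih b h2 (by omega) u
          · simp
      · rw [hk] at hr
        simp only at hr ⊢
        obtain ⟨h1, h2, h5, h6⟩ := hr
        split_ifs with h
        · rw [h5 u]
          refine card_biUnion_le.trans ?_
          refine le_trans ?_ (Finset.sum_le_sum_of_subset (Finset.subset_univ (D.M b)))
          apply Finset.sum_le_sum
          intro w hw
          rw [mem_M] at hw
          refine card_image_le.trans ((ih a h1 (by omega) _).trans ?_)
          exact Nat.le_mul_of_pos_left _ hw
        · simp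

theorem shift_shift (w c : X n) (e : ℕ × X n × X n) : shift c (shift w e) = shift (xr w c) e := by
  unfold shift
  simp only [xr_assoc]

theorem L_sub (hV : D.Valid) : ∀ (d v : ℕ), D.top - v = d → ∀ x' u', (x', u') ∈ D.act v →
    ∀ u, 0 < D.g v u → ∀ e ∈ D.L v u, shift (xr x' u') e ∈ D.L D.top (xr u (xr x' u')) := by
  intro d
  induction d using Nat.strong_induction_on with
  | _ d ih =>
    intro v hd x' u' hx' u hpos e he
    by_cases hv : v = D.top
    · subst hv
      have := D.mem_act_top.mp hx'
      simp only at this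
      rw [this.1, xr_self, xr_zero]
      have h1 : shift (fun _ => false) e = e := by
        unfold shift; rw [xr_zero]
      rw [h1]; exact he
    · obtain ⟨p, h1, h2, up, h3, h4, h5, h6⟩ := (D.mem_act hv).mp hx'
      have hpos' : 0 < D.g p up := act_pos' hV h3
      have hr := hV p h2
      unfold RuleAt at hr
      unfold next at h5
      rcases hk : D.kd p with _ | ⟨a, b⟩ | ⟨a, b⟩
      · rw [hk] at h5; simp only [Prod.mk.injEq] at h5; omega
      · have hst : ¬ D.Stop p := by
          unfold Stop; rw [hk]; simp; omega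
        rw [hk] at hr h5
        simp only at hr h5
        obtain ⟨r1, r2, r5⟩ := hr
        have hu : up = u' := by
          split_ifs at h5 <;> exact (Prod.mk.inj h5).2
        subst hu
        have hpp : 0 < D.g p u := by
          rw [r5 u]
          split_ifs at h5
          · rw [(Prod.mk.inj h5).1]; omega
          · rw [(Prod.mk.inj h5).1]; omega
        apply ih (D.top - p) (by omega) p rfl x' up h3 u hpp
        rw [L.eq_def D p u, if_neg hst, hk]
        simp only
        split_ifs at h5 with hh
        · have h7 := (Prod.mk.inj h5).1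
          subst h7
          rw [dif_pos ⟨r1, h6⟩]
          exact mem_union_left _ he
        · have h7 := (Prod.mk.inj h5).1
          subst h7
          apply mem_union_right
          rw [dif_pos ⟨r2, h6⟩]
          exact he
      · have hst : ¬ D.Stop p := by
          unfold Stop; rw [hk]; simp; omega
        rw [hk] at hr h5
        simp only at hr h5
        obtain ⟨r1, r2, r5, r6⟩ := hr
        rw [r5 up] at hpos'
        obtain ⟨hs1, hs2⟩ := D.sp_spec hpos'
        set w := D.sp a b up with hw
        obtain ⟨h7, h8⟩ := Prod.mk.inj h5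
        subst h7
        subst h8
        have hpp : 0 < D.g p (xr u w) := by
          rw [r5]
          exact D.conv_pos hs1 hpos
        have h9 : shift w e ∈ D.L p (xr u w) := by
          rw [L.eq_def D p (xr u w), if_neg hst, hk]
          simp only
          rw [dif_pos ⟨r1, h6⟩, mem_biUnion]
          refine ⟨w, (D.mem_M).mpr hs1, ?_⟩
          rw [xr_xr_cancel_right]
          exact mem_image_of_mem _ he
        have h10 := ih (D.top - p) (by omega) p rfl x' up h3 (xr u w) hpp _ h9
        rw [shift_shift] at h10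
        have h11 : xr w (xr x' up) = xr x' (xr up w) := by
          rw [xr_comm w, xr_assoc]
        have h12 : xr (xr u w) (xr x' up) = xr u (xr x' (xr up w)) := by
          rw [xr_assoc, h11]
        rw [h11, h12] at h10
        exact h10

theorem mem_ctx {v : ℕ} {c : X n} : c ∈ D.ctx v ↔ ∃ x u, (x, u) ∈ D.act v ∧ xr x u = c := by
  unfold ctx ctxOf
  rw [mem_image]
  constructor
  · rintro ⟨⟨x, u⟩, h, rfl⟩
    exact ⟨x, u, h, rfl⟩
  · rintro ⟨x, u, h, rfl⟩
    exact ⟨(x, u), h, rfl⟩

/-- Every pair of a stopping gate is reachable. -/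
theorem pair_mem_L (hV : D.Valid) {v : ℕ} (hst : D.Stop v) {c u : X n} (hc : c ∈ D.ctx v)
    (hu : u ∈ D.M v) : (v, c, u) ∈ D.L D.top (xr c u) := by
  obtain ⟨x', u', hx', rfl⟩ := mem_ctx.mp hc
  rw [mem_M] at hu
  have h1 : (v, (fun _ => false), u) ∈ D.L v u := by
    rw [L, if_pos hst, if_pos hu]; simp
  have h2 := L_sub hV _ v rfl x' u' hx' u hu _ h1
  unfold shift at h2
  simp only at h2
  rw [xr_comm (fun _ => false), xr_zero, xr_comm u] at h2
  exact h2

/-- The pairs of a stopping gate are corrupted. -/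
theorem stop_corr (hV : D.Valid) {A : Finset (X n)} {N : ℕ} (hA : SumCorr A D.K N)
    (htop : D.K < (D.M D.top).card) {v : ℕ} (hst : D.Stop v) :
    N * ((D.ctx v ×ˢ D.M v).filter fun p => xr p.1 p.2 ∈ A).card ≤
      ((D.ctx v ×ˢ D.M v).filter fun p => xr p.1 p.2 ∉ A).card := by
  rcases (D.ctx v).eq_empty_or_nonempty with hemp | ⟨c, hc⟩
  · rw [hemp]; simp
  obtain ⟨x', u', hx', _⟩ := mem_ctx.mp hc
  have hvt := D.act_le hx'
  have hM : D.K < (D.M v).card := by
    by_cases ht : v = D.top
    · rw [ht]; exact htop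
    · exact D.act_K hx' ht
  by_cases hbig : D.K < (D.ctx v).card
  · exact hA _ _ hbig hM
  · have hleaf : D.kd v = .leaf := by
      rcases hst with h | h
      · exact absurd h hbig
      · exact h
    have hr := hV v hvt
    unfold RuleAt at hr
    rw [hleaf] at hr
    simp only at hr
    have hAff : Aff (D.M v) := by
      rcases hr with h | h
      · omega
      · exact h
    have h1 : ∀ (Q : X n → Prop) [DecidablePred Q],
        ((D.ctx v ×ˢ D.M v).filter fun p => Q (xr p.1 p.2)).card =
          ∑ c ∈ D.ctx v, ((D.M v).filter fun y => Q (xr c y)).card := by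
      intro Q _
      rw [Finset.card_filter, Finset.sum_product]
      apply Finset.sum_congr rfl
      intro c _
      rw [Finset.card_filter]
    rw [h1 (fun x => x ∈ A), h1 (fun x => x ∉ A), Finset.mul_sum]
    apply Finset.sum_le_sum
    intro c _
    exact aff_corr hA hAff hM c

variable (D)

open Classical in
/-- Assignments stopped at the gate `v` with few possibilities. -/
noncomputable def few (v : ℕ) : Finset (X n) :=
  if (D.ctx v).card ≤ D.K then
    match D.kd v with
    | .leaf => ∅
    | .or a b =>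
      (if (D.M a).card ≤ D.K then (D.ctx v ×ˢ D.M a).image (fun p => xr p.1 p.2) else ∅) ∪
      (if (D.M b).card ≤ D.K then (D.ctx v ×ˢ D.M b).image (fun p => xr p.1 p.2) else ∅)
    | .and a b =>
      if (D.M a).card ≤ D.K ∧ (D.M b).card ≤ D.K then
        (D.ctx v ×ˢ (D.M a ×ˢ D.M b)).image (fun p => xr p.1 (xr p.2.1 p.2.2)) else ∅
  else ∅

variable {D}

theorem few_card {κ : ℕ} (hK : D.K = 2 ^ κ) (v : ℕ) : (D.few v).card ≤ 2 ^ (3 * κ + 1) := by
  have hor : ∀ a, (D.ctx v).card ≤ D.K → (if (D.M a).card ≤ D.K then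
      (D.ctx v ×ˢ D.M a).image (fun p => xr p.1 p.2) else ∅ : Finset (X n)).card ≤
        2 ^ κ * 2 ^ κ := by
    intro a hc
    split_ifs with h
    · refine card_image_le.trans ?_
      rw [card_product]
      rw [hK] at hc h
      exact Nat.mul_le_mul hc h
    · simp
  unfold few
  split_ifs with hc
  · rcases hk : D.kd v with _ | ⟨a, b⟩ | ⟨a, b⟩
    · simp
    · simp only
      refine (card_union_le _ _).trans ?_
      calc _ ≤ 2 ^ κ * 2 ^ κ + 2 ^ κ * 2 ^ κ := add_le_add (hor a hc) (hor b hc)
        _ = 2 ^ (2 * κ + 1) := by rw [pow_succ, two_mul κ, pow_add]; ring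
        _ ≤ 2 ^ (3 * κ + 1) := Nat.pow_le_pow_right (by norm_num) (by omega)
    · simp only
      split_ifs with h
      · refine card_image_le.trans ?_
        rw [card_product, card_product]
        rw [hK] at hc h
        calc (D.ctx v).card * ((D.M a).card * (D.M b).card) ≤ 2 ^ κ * (2 ^ κ * 2 ^ κ) :=
              Nat.mul_le_mul hc (Nat.mul_le_mul h.1 h.2)
          _ = 2 ^ (3 * κ) := by rw [← pow_add, ← pow_add]; congr 1; ring
          _ ≤ 2 ^ (3 * κ + 1) := Nat.pow_le_pow_right (by norm_num) (by omega)
      · simp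
  · simp

/-- Coverage. -/
theorem cover (hV : D.Valid) {x : X n}
    (hx : 0 < D.g D.top x) :
    (∃ v ≤ D.top, x ∈ D.few v) ∨
      ∃ v ≤ D.top, D.Stop v ∧ ∃ c ∈ D.ctx v, ∃ u ∈ D.M v, xr c u = x := by
  classical
  -- the last gate of the canonical path
  have hex : ∃ v, ∃ u, (x, u) ∈ D.act v := ⟨D.top, x, D.mem_act_top.mpr ⟨rfl, hx⟩⟩
  set v := Nat.find hex with hv
  obtain ⟨u, hxv⟩ : ∃ u, (x, u) ∈ D.act v := Nat.find_spec hex
  have hmin : ∀ w < v, ∀ u', (x, u') ∉ D.act w := fun w hw u' h => Nat.find_min hex hw ⟨u', h⟩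
  have hvt := D.act_le hxv
  have hpos := act_pos' hV hxv
  have hctx : xr x u ∈ D.ctx v := mem_ctx.mpr ⟨x, u, hxv, rfl⟩
  by_cases hst : D.Stop v
  · right
    exact ⟨v, hvt, hst, xr x u, hctx, u, (D.mem_M).mpr hpos, xr_xr_cancel_right _ _⟩
  · have hle : (D.ctx v).card ≤ D.K := by
      unfold Stop at hst; push Not at hst; exact hst.1
    have hnl : D.kd v ≠ .leaf := by
      unfold Stop at hst; push Not at hst; exact hst.2
    have hnext : (D.next v u).1 < v → (D.M (D.next v u).1).card ≤ D.K := by
      intro hlt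
      by_contra hcon
      apply hmin _ hlt (D.next v u).2
      rw [D.mem_act (by omega)]
      exact ⟨v, hlt, hvt, u, hxv, hle, rfl, by omega⟩
    have hr := hV v hvt
    unfold RuleAt at hr
    unfold next at hnext
    left
    refine ⟨v, hvt, ?_⟩
    rcases hk : D.kd v with _ | ⟨a, b⟩ | ⟨a, b⟩
    · exact absurd hk hnl
    · rw [hk] at hr hnext
      simp only at hr hnext
      obtain ⟨r1, r2, r5⟩ := hr
      unfold few
      rw [if_pos hle, hk]
      simp only
      by_cases ha : 0 < D.g a u
      · rw [if_pos ha] at hnext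
        have hMa := hnext r1
        simp only at hMa
        apply mem_union_left
        rw [if_pos hMa, mem_image]
        exact ⟨(xr x u, u), by rw [mem_product]; exact ⟨hctx, (D.mem_M).mpr ha⟩,
          xr_xr_cancel_right _ _⟩
      · rw [if_neg ha] at hnext
        have hMb := hnext r2
        simp only at hMb
        have hb : 0 < D.g b u := by have := r5 u; omega
        apply mem_union_right
        rw [if_pos hMb, mem_image]
        exact ⟨(xr x u, u), by rw [mem_product]; exact ⟨hctx, (D.mem_M).mpr hb⟩,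
          xr_xr_cancel_right _ _⟩
    · rw [hk] at hr hnext
      simp only at hr hnext
      obtain ⟨r1, r2, r5, r6⟩ := hr
      have hMa := hnext r1
      rw [r5 u] at hpos
      obtain ⟨hs1, hs2⟩ := D.sp_spec hpos
      unfold few
      rw [if_pos hle, hk]
      simp only
      rw [if_pos ⟨hMa, r6.trans hMa⟩, mem_image]
      refine ⟨(xr x u, xr u (D.sp a b u), D.sp a b u), ?_, ?_⟩
      · rw [mem_product, mem_product]
        exact ⟨hctx, (D.mem_M).mpr hs2, (D.mem_M).mpr hs1⟩
      · simp only
        rw [xr_xr_cancel_right, xr_xr_cancel_right]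

theorem bound_big (hV : D.Valid) {A : Finset (X n)} {κ N : ℕ} (hK : D.K = 2 ^ κ)
    (hA : SumCorr A (2 ^ κ) N) (htop : D.K < (D.M D.top).card) :
    N * (univ.filter fun x : X n => 0 < D.g D.top x ∧ x ∈ A).card ≤
      N * (2 ^ (3 * κ + 1) * (D.top + 1)) +
        ∑ x ∈ univ.filter (fun x : X n => x ∉ A), D.g D.top x := by
  classical
  set St := (range (D.top + 1)).filter D.Stop with hSt
  set P : ℕ → Finset (X n × X n) := fun v => D.ctx v ×ˢ D.M v with hP
  have h1 : (univ.filter fun x : X n => 0 < D.g D.top x ∧ x ∈ A) ⊆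
      (range (D.top + 1)).biUnion D.few ∪
      St.biUnion (fun v => ((P v).filter fun p => xr p.1 p.2 ∈ A).image
        (fun p => xr p.1 p.2)) := by
    intro x hx
    simp only [mem_filter, mem_univ, true_and] at hx
    rw [mem_union, mem_biUnion, mem_biUnion]
    rcases cover hV hx.1 with ⟨v, hv, hv'⟩ | ⟨v, hv, hst, c, hc, u, hu, hcu⟩
    · left; exact ⟨v, by simp; omega, hv'⟩
    · right
      refine ⟨v, ?_, ?_⟩
      · rw [hSt, mem_filter]; exact ⟨by simp; omega, hst⟩
      · rw [mem_image]
        refine ⟨(c, u), ?_, hcu⟩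
        rw [mem_filter, hP]
        simp only [mem_product]
        rw [hcu]
        exact ⟨⟨hc, hu⟩, hx.2⟩
  have h2 := Finset.card_le_card h1
  have h3 : ((range (D.top + 1)).biUnion D.few).card ≤ 2 ^ (3 * κ + 1) * (D.top + 1) := by
    refine card_biUnion_le.trans ?_
    refine (Finset.sum_le_card_nsmul _ _ _ (fun v _ => few_card hK v)).trans ?_
    simp [mul_comm]
  have h4 : (St.biUnion (fun v => ((P v).filter fun p => xr p.1 p.2 ∈ A).image
        (fun p => xr p.1 p.2))).card ≤
      ∑ v ∈ St, ((P v).filter fun p => xr p.1 p.2 ∈ A).card :=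
    card_biUnion_le.trans (Finset.sum_le_sum fun v _ => card_image_le)
  have h5 : N * ∑ v ∈ St, ((P v).filter fun p => xr p.1 p.2 ∈ A).card ≤
      ∑ v ∈ St, ((P v).filter fun p => xr p.1 p.2 ∉ A).card := by
    rw [Finset.mul_sum]
    apply Finset.sum_le_sum
    intro v hv
    rw [← hK] at hA
    exact stop_corr hV hA htop (mem_filter.mp hv).2
  have h6 : ∑ v ∈ St, ((P v).filter fun p => xr p.1 p.2 ∉ A).card ≤
      ∑ x ∈ univ.filter (fun x : X n => x ∉ A), D.g D.top x := by
    -- regroup by the sum
    have h7 : ∀ v, ((P v).filter fun p => xr p.1 p.2 ∉ A).card =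
        ∑ x ∈ univ.filter (fun x : X n => x ∉ A), ((P v).filter fun p => xr p.1 p.2 = x).card := by
      intro v
      rw [← Finset.card_biUnion]
      · congr 1
        ext p
        simp only [mem_filter, mem_biUnion, mem_univ, true_and]
        constructor
        · rintro ⟨ha, hb⟩; exact ⟨_, hb, ha, rfl⟩
        · rintro ⟨x, hb, ha, rfl⟩; exact ⟨ha, hb⟩
      · intro x _ y _ hxy
        rw [Function.onFun, Finset.disjoint_left]
        intro p hp hq
        exact hxy ((mem_filter.mp hp).2.symm.trans (mem_filter.mp hq).2)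
    rw [Finset.sum_congr rfl (fun v _ => h7 v), Finset.sum_comm]
    apply Finset.sum_le_sum
    intro x _
    refine le_trans ?_ (L_card hV D.top le_rfl x)
    have h8 : ∑ v ∈ St, ((P v).filter fun p => xr p.1 p.2 = x).card =
        (St.biUnion fun v => ((P v).filter fun p => xr p.1 p.2 = x).image
          (fun p => (v, p.1, p.2))).card := by
      rw [Finset.card_biUnion]
      · apply Finset.sum_congr rfl
        intro v _
        rw [Finset.card_image_of_injective]
        intro p q hpq
        simp only [Prod.mk.injEq, true_and] at hpq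
        exact Prod.ext hpq.1 hpq.2
      · intro v _ w _ hvw
        rw [Function.onFun, Finset.disjoint_left]
        intro e he he'
        obtain ⟨p, _, rfl⟩ := mem_image.mp he
        obtain ⟨q, _, hq⟩ := mem_image.mp he'
        exact hvw (Prod.mk.inj hq).1.symm
    rw [h8]
    apply Finset.card_le_card
    intro e he
    obtain ⟨v, hv, he2⟩ := mem_biUnion.mp he
    obtain ⟨p, hp, rfl⟩ := mem_image.mp he2
    rw [mem_filter, hP] at hp
    simp only [mem_product] at hp
    have := pair_mem_L hV (mem_filter.mp hv).2 hp.1.1 hp.1.2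
    rw [hp.2] at this
    exact this
  calc N * (univ.filter fun x : X n => 0 < D.g D.top x ∧ x ∈ A).card
      ≤ N * (2 ^ (3 * κ + 1) * (D.top + 1) +
          ∑ v ∈ St, ((P v).filter fun p => xr p.1 p.2 ∈ A).card) := by
        apply Nat.mul_le_mul_left
        exact (h2.trans (card_union_le _ _)).trans (add_le_add h3 h4)
    _ = N * (2 ^ (3 * κ + 1) * (D.top + 1)) +
          N * ∑ v ∈ St, ((P v).filter fun p => xr p.1 p.2 ∈ A).card := by ring
    _ ≤ _ := Nat.add_le_add_left (h5.trans h6) _

/-- **Main theorem for circuits with sums and XOR-convolutions.** -/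
theorem bound (hV : D.Valid) {A : Finset (X n)} {κ N : ℕ} (hK : D.K = 2 ^ κ)
    (hA : SumCorr A (2 ^ κ) N) :
    N * (univ.filter fun x : X n => 0 < D.g D.top x ∧ x ∈ A).card ≤
      N * (2 ^ (3 * κ + 1) * (D.top + 1)) +
        ∑ x ∈ univ.filter (fun x : X n => x ∉ A), D.g D.top x := by
  by_cases htop : D.K < (D.M D.top).card
  · exact bound_big hV hK hA htop
  · have h1 : (univ.filter fun x : X n => 0 < D.g D.top x ∧ x ∈ A).card ≤
        2 ^ (3 * κ + 1) * (D.top + 1) := by
      calc (univ.filter fun x : X n => 0 < D.g D.top x ∧ x ∈ A).card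
          ≤ (D.M D.top).card := by
            apply Finset.card_le_card
            intro x hx
            rw [mem_M]
            exact (mem_filter.mp hx).2.1
        _ ≤ 2 ^ κ := by rw [← hK]; omega
        _ ≤ 2 ^ (3 * κ + 1) := Nat.pow_le_pow_right (by norm_num) (by omega)
        _ ≤ _ := Nat.le_mul_of_pos_right _ (by omega)
    exact (Nat.mul_le_mul_left _ h1).trans (Nat.le_add_right _ _)

end SCirc

end Pool.Agent.Helper83.SETH
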