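import Pool.Agent.Helper83.SETH.Main

/-!
# MP_4ed1f9_lc: the exponent of `#k-SAT` tends to one for decomposable circuits and XOR programs

For every `k ≥ 2` and `n ≥ 4 k ^ 2` there is a `k`-CNF formula `φ` on `n` variables with at most
`2 ^ k * n` clauses such that every decomposable circuit (even nondeterministic: the class DNNF,
which contains d-DNNF, SDD, OBDD, FBDD, nondeterministic read-once branching programs, i.e. the
traces of all DPLL-type exact model counters with component caching) and every XOR program for `φ`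
has at least `2 ^ ((1 - O((log k) ^ 2 / k)) n)` gates, and any smaller one misses almost all models
of `φ` or has exponentially more false positives than true positives.

The definitions are in `Pool/Agent/Helper83/SETH/Statement.lean`.
-/

namespace Pool.Agent.Helper83.SETH.ShelfStrongCircuitBound

open Finset Pool.Agent.Helper83.SETH

open Classical in
theorem result : ∃ C : ℝ, 0 < C ∧ ∀ k n : ℕ, 2 ≤ k → 4 * k ^ 2 ≤ n →
    ∃ (m : ℕ) (φ : Fin m → Clause k n), m ≤ 2 ^ k * n ∧
      (2 : ℝ) ^ ((1 - C / k) * n) ≤ ((univ.filter fun x => Sat φ x).card : ℝ) ∧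
      ∀ (s : ℕ) (g : (Fin n → Bool) → ℕ), Computes s (2 ^ (Real.logb 2 k ^ 2 / k * n)) g →
        ((univ.filter fun x => Sat φ x ∧ 0 < g x).card : ℝ) ≤
            (2 : ℝ) ^ (C * Real.logb 2 k ^ 2 / k * n) * s +
              (2 : ℝ) ^ (-(n / (C * k ^ 2)) : ℝ) *
                ∑ x ∈ univ.filter (fun x => ¬ Sat φ x), (g x : ℝ) ∧
        ((∀ x, 0 < g x ↔ Sat φ x) →
          (2 : ℝ) ^ ((1 - C * Real.logb 2 k ^ 2 / k) * n) ≤ s) := by
  refine ⟨1056, by norm_num, fun k n hk hn => ?_⟩
  obtain ⟨m, φ, hm, hmod, hA, hB⟩ := main k n hk hn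
  have hkR : (2 : ℝ) ≤ k := by exact_mod_cast hk
  have hk0 : (0 : ℝ) < k := by linarith
  have hn0 : (0 : ℝ) ≤ n := Nat.cast_nonneg n
  have hl1 : (1 : ℝ) ≤ Real.logb 2 k := by
    rw [Real.le_logb_iff_rpow_le (by norm_num) hk0]
    simpa using hkR
  set l := Real.logb 2 k with hl
  have hl2 : (1 : ℝ) ≤ l ^ 2 := one_le_pow₀ hl1
  have hmodels : models φ = univ.filter fun x => Sat φ x := by
    unfold models
    congr
  have hmem : ∀ x, x ∈ models φ ↔ Sat φ x := by
    intro x; rw [hmodels]; simp
  -- the common inequality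
  have hcommon : ∀ (s : ℕ) (g : (Fin n → Bool) → ℕ), Computes s (2 ^ (l ^ 2 / k * n)) g →
      ((univ.filter fun x => Sat φ x ∧ 0 < g x).card : ℝ) ≤
        (2 : ℝ) ^ (1050 * l ^ 2 / k * n) * s + (2 : ℝ) ^ (-(n / (2 * k ^ 2)) : ℝ) *
          ∑ x ∈ univ.filter (fun x => ¬ Sat φ x), (g x : ℝ) := by
    intro s g hg
    have key : ∃ v < s, ((univ.filter fun x : X n => 0 < g x ∧ x ∈ models φ).card : ℝ) ≤
          (2 : ℝ) ^ (1050 * l ^ 2 / k * n) * (v + 1) +
            (2 : ℝ) ^ (-((n : ℝ) / (2 * k ^ 2))) *
              ∑ x ∈ univ.filter (fun x : X n => x ∉ models φ), (g x : ℝ) := by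
      rcases hg with ⟨D, v, hv, rfl⟩ | ⟨D, v, hv, rfl⟩
      · exact ⟨v, hv, hA s D v hv⟩
      · exact ⟨v, hv, hB s D v hv⟩
    obtain ⟨v, hv, h1⟩ := key
    have h2 : (univ.filter fun x : X n => 0 < g x ∧ x ∈ models φ) =
        univ.filter fun x => Sat φ x ∧ 0 < g x := by
      apply Finset.filter_congr
      intro x _
      rw [hmem x]; exact and_comm
    have h3 : (univ.filter fun x : X n => x ∉ models φ) = univ.filter fun x => ¬ Sat φ x := by
      apply Finset.filter_congr
      intro x _
      rw [hmem x]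
    rw [h2, h3] at h1
    refine h1.trans (add_le_add_left ?_ _)
    apply mul_le_mul_of_nonneg_left _ (by positivity)
    exact_mod_cast hv
  refine ⟨m, φ, hm, ?_, ?_⟩
  · rw [hmodels] at hmod
    refine le_trans ?_ hmod
    apply Real.rpow_le_rpow_of_exponent_le (by norm_num)
    apply mul_le_mul_of_nonneg_right _ hn0
    have : (6 : ℝ) / k ≤ 1056 / k := div_le_div_of_nonneg_right (by norm_num) hk0.le
    linarith
  · intro s g hg
    have h1 := hcommon s g hg
    constructor
    · refine h1.trans (add_le_add ?_ ?_)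
      · apply mul_le_mul_of_nonneg_right _ (Nat.cast_nonneg _)
        apply Real.rpow_le_rpow_of_exponent_le (by norm_num)
        apply mul_le_mul_of_nonneg_right _ hn0
        apply div_le_div_of_nonneg_right _ hk0.le
        nlinarith
      · apply mul_le_mul_of_nonneg_right _ (Finset.sum_nonneg fun _ _ => Nat.cast_nonneg _)
        apply Real.rpow_le_rpow_of_exponent_le (by norm_num)
        apply neg_le_neg
        apply div_le_div_of_nonneg_left hn0 (by positivity)
        nlinarith [sq_nonneg (k : ℝ)]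
    · intro hex
      have h2 : (univ.filter fun x => Sat φ x ∧ 0 < g x) = univ.filter fun x => Sat φ x := by
        apply Finset.filter_congr
        intro x _
        exact ⟨fun h => h.1, fun h => ⟨h, (hex x).mpr h⟩⟩
      have h3 : ∑ x ∈ univ.filter (fun x => ¬ Sat φ x), (g x : ℝ) = 0 := by
        apply Finset.sum_eq_zero
        intro x hx
        have hx' := (Finset.mem_filter.mp hx).2
        have : g x = 0 := by
          by_contra hne
          exact hx' ((hex x).mp (Nat.pos_of_ne_zero hne))
        rw [this]; simp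
      rw [h2, h3, mul_zero, add_zero] at h1
      rw [hmodels] at hmod
      have h4 := hmod.trans h1
      have h5 : (2 : ℝ) ^ (1050 * l ^ 2 / k * n) * (2 : ℝ) ^ ((1 - 1056 * l ^ 2 / k) * n) ≤
          (2 : ℝ) ^ (1050 * l ^ 2 / k * n) * s := by
        refine le_trans ?_ h4
        rw [← Real.rpow_add (by norm_num)]
        apply Real.rpow_le_rpow_of_exponent_le (by norm_num)
        rw [← add_mul]
        apply mul_le_mul_of_nonneg_right _ hn0
        have h6 : (6 : ℝ) / k ≤ 6 * l ^ 2 / k := by
          apply div_le_div_of_nonneg_right _ hk0.le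
          linarith
        have h7 : (1056 : ℝ) * l ^ 2 / k = 1050 * l ^ 2 / k + 6 * l ^ 2 / k := by ring
        rw [h7]; linarith
      exact le_of_mul_le_mul_left h5 (by positivity)

end Pool.Agent.Helper83.SETH.ShelfStrongCircuitBound
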