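import Mathlib

/-!
Definitions used in the statement of `MP_4ed1f9_lc.StrongCircuitBound`:
`k`-CNF formulas, decomposable circuits, XOR programs.
-/

namespace Pool.Agent.Helper83.SETH

open Finset

/-- A clause with `k` literals on `n` variables: the `l`-th literal is on the variable `(c l).1`
and it is violated exactly by the value `(c l).2`. -/
abbrev Clause (k n : ℕ) := Fin k → Fin n × Bool

/-- The assignment `x` satisfies the `k`-CNF formula with the clauses `φ 0, …, φ (m - 1)`. -/
def Sat {m k n : ℕ} (φ : Fin m → Clause k n) (x : Fin n → Bool) : Prop :=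
  ∀ j, ∃ l, x (φ j l).1 ≠ (φ j l).2

/-- A decomposable circuit with `s` gates `0, …, s - 1` on `n` Boolean variables.  `S v` is the set
of variables of the gate `v`, and `g v x` is the number of proof trees of the gate `v` on the
assignment `x` (the gate accepts `x` iff `0 < g v x`).  Every gate is either

* a leaf: an arbitrary Boolean function `f` of the variables `S v` with at most `W` satisfying
  assignments of these variables (literals, constants, clauses, …), or
* an OR gate with two earlier gates `a`, `b` as inputs (the numbers of proof trees are added), or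
* an AND gate with two earlier gates `a`, `b` with disjoint variable sets as inputs (the numbers of
  proof trees are multiplied). -/
structure Program (n s : ℕ) (W : ℝ) where
  S : ℕ → Finset (Fin n)
  g : ℕ → (Fin n → Bool) → ℕ
  rule : ∀ v < s,
    (∃ f : (Fin n → Bool) → Bool,
      (∀ x y : Fin n → Bool, (∀ i ∈ S v, x i = y i) → f x = f y) ∧
      ((univ.filter fun x : Fin n → Bool => f x = true ∧ ∀ i ∉ S v, x i = false).card : ℝ) ≤ W ∧
      ∀ x, g v x = if f x = true then 1 else 0) ∨
    (∃ a b, a < v ∧ b < v ∧ S v = S a ∪ S b ∧ ∀ x, g v x = g a x + g b x) ∨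
    (∃ a b, a < v ∧ b < v ∧ S v = S a ∪ S b ∧ Disjoint (S a) (S b) ∧
      ∀ x, g v x = g a x * g b x)

/-- A XOR program with `s` gates `0, …, s - 1` on `n` Boolean variables.  Every gate `v` computes a
multiset of assignments, i.e. a function `g v : {0,1}^n → ℕ`; it is either

* a sparse leaf: an arbitrary function with at most `W` nonzero values,
* an affine leaf: the indicator function of an arbitrary affine subspace `H` of `F_2^n`
  (a set closed under `x ⊕ y ⊕ z`: the solution set of a system of linear equations),
* the sum of two earlier gates, or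
* the XOR-convolution of two earlier gates: `g v x = ∑ y, g a y * g b (x ⊕ y)`.

There is no restriction (such as decomposability, determinism or multilinearity) on the way in
which the gates are combined. -/
structure XorProgram (n s : ℕ) (W : ℝ) where
  g : ℕ → (Fin n → Bool) → ℕ
  rule : ∀ v < s,
    (((univ.filter fun x : Fin n → Bool => g v x ≠ 0).card : ℝ) ≤ W) ∨
    (∃ H : Finset (Fin n → Bool),
      (∀ x ∈ H, ∀ y ∈ H, ∀ z ∈ H, (fun i => xor (xor (x i) (y i)) (z i)) ∈ H) ∧
      ∀ x, g v x = if x ∈ H then 1 else 0) ∨
    (∃ a b, a < v ∧ b < v ∧ ∀ x, g v x = g a x + g b x) ∨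
    (∃ a b, a < v ∧ b < v ∧ ∀ x, g v x = ∑ y, g a y * g b (fun i => xor (x i) (y i)))

/-- `g` is computed with `s` gates by a decomposable circuit or by a XOR program, with leaves of
size at most `W`. -/
def Computes {n : ℕ} (s : ℕ) (W : ℝ) (g : (Fin n → Bool) → ℕ) : Prop :=
  (∃ D : Program n s W, ∃ v < s, D.g v = g) ∨ (∃ D : XorProgram n s W, ∃ v < s, D.g v = g)

end Pool.Agent.Helper83.SETH
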