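import Pool.Agent.Helper83.SETH.Mask

/-!
Sums of assignments in `F_2^n`; corruption of sumsets.
-/

namespace Pool.Agent.Helper83.SETH

open Finset

variable {n : ℕ}

/-- The sum of two assignments in the group `F_2^n`. -/
def xr (x y : X n) : X n := fun i => xor (x i) (y i)

theorem xr_comm (x y : X n) : xr x y = xr y x := by funext i; simp [xr, Bool.xor_comm]

theorem xr_assoc (x y z : X n) : xr (xr x y) z = xr x (xr y z) := by
  funext i; simp [xr]

theorem xr_self (x : X n) : xr x x = fun _ => false := by funext i; simp [xr]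

theorem xr_xr_cancel_right (x y : X n) : xr (xr x y) y = x := by
  funext i; simp [xr]

theorem xr_xr_cancel_left (x y : X n) : xr x (xr x y) = y := by
  funext i; simp [xr]

theorem xr_zero (x : X n) : xr x (fun _ => false) = x := by funext i; simp [xr]

theorem xr_inj_left {x y z : X n} (h : xr x y = xr x z) : y = z := by
  rw [← xr_xr_cancel_left x y, h, xr_xr_cancel_left]

theorem xr_inj_right {x y z : X n} (h : xr y x = xr z x) : y = z := by
  rw [← xr_xr_cancel_right y x, h, xr_xr_cancel_right]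

theorem dist_xr (a b c : X n) : hammingDist a (xr b c) = hammingDist (xr a b) c := by
  unfold hammingDist
  apply congrArg Finset.card
  apply Finset.filter_congr
  intro i _
  simp only [xr]
  cases a i <;> cases b i <;> cases c i <;> simp

theorem dist_xr_xr (a b c : X n) : hammingDist (xr a c) (xr b c) = hammingDist a b := by
  unfold hammingDist
  apply congrArg Finset.card
  apply Finset.filter_congr
  intro i _
  simp only [xr]
  cases a i <;> cases b i <;> cases c i <;> simp

theorem dist_zero_xr (a b : X n) : hammingDist (xr a b) (fun _ => false) = hammingDist a b := by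
  unfold hammingDist
  apply congrArg Finset.card
  apply Finset.filter_congr
  intro i _
  simp only [xr]
  cases a i <;> cases b i <;> simp

/-- `A` contains no `t × t` grid of pairwise far sums. -/
def SGridFree (A : Finset (X n)) (t d : ℕ) : Prop :=
  ∀ u v : Fin t → X n,
    (∀ p q : Fin t × Fin t, p ≠ q → d ≤ hammingDist (xr (u p.1) (v p.2)) (xr (u q.1) (v q.2))) →
    ∃ p : Fin t × Fin t, xr (u p.1) (v p.2) ∉ A

/-- In every sumset `U + V` with more than `K` elements in `U` and in `V`, sums outside `A` are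
`N` times more frequent than sums in `A`. -/
def SumCorr (A : Finset (X n)) (K N : ℕ) : Prop :=
  ∀ U V : Finset (X n), K < U.card → K < V.card →
    N * ((U ×ˢ V).filter fun p => xr p.1 p.2 ∈ A).card ≤
      ((U ×ˢ V).filter fun p => xr p.1 p.2 ∉ A).card

theorem sball_translate {d B : ℕ}
    (hB : (univ.filter fun y : X n => hammingDist y (fun _ => false) < d).card ≤ B) (u : X n) :
    (univ.filter fun y : X n => hammingDist u y < d).card ≤ B := by
  refine le_trans ?_ hB
  apply Finset.card_le_card_of_injOn (fun y => xr u y)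
  · intro y hy
    simp only [coe_filter, mem_univ, true_and, Set.mem_ofPred_eq] at hy ⊢
    rw [dist_zero_xr]; exact hy
  · intro y _ z _ hyz
    exact xr_inj_left hyz

/-- Greedy choice. -/
theorem sgreedy {t D : ℕ} (good : X n → X n → Prop) [DecidableRel good]
    (hsymm : ∀ a b, good a b → good b a)
    (hD : ∀ a : X n, (univ.filter fun z : X n => ¬ good a z).card ≤ D)
    (N : Finset (X n)) : ∀ s : ℕ, s ≤ t → (t - 1) * D < N.card →
      ∃ w : Fin s → X n, (∀ i, w i ∈ N) ∧ ∀ i j, i ≠ j → good (w i) (w j) := by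
  intro s
  induction s with
  | zero => intro _ _; exact ⟨fun i => i.elim0, fun i => i.elim0, fun i => i.elim0⟩
  | succ s ih =>
    intro hs hN
    obtain ⟨w, hw1, hw2⟩ := ih (by omega) hN
    have h1 : ((univ : Finset (Fin s)).biUnion
        (fun i => univ.filter fun z : X n => ¬ good (w i) z)).card ≤ s * D := by
      refine card_biUnion_le.trans ?_
      refine (Finset.sum_le_card_nsmul _ _ _ (fun i _ => hD (w i))).trans ?_
      simp
    have h2 : s * D ≤ (t - 1) * D := Nat.mul_le_mul_right _ (by omega)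
    obtain ⟨z, hz1, hz2⟩ := Finset.exists_mem_notMem_of_card_lt_card
      (lt_of_le_of_lt (h1.trans h2) hN)
    have hz3 : ∀ i, good (w i) z := by
      intro i
      by_contra hcon
      apply hz2
      rw [mem_biUnion]
      exact ⟨i, mem_univ _, by simp [hcon]⟩
    refine ⟨Fin.cons z w, ?_, ?_⟩
    · intro i
      refine Fin.cases ?_ (fun i => ?_) i
      · simpa using hz1
      · simpa using hw1 i
    · intro i j
      refine Fin.cases ?_ (fun i => ?_) i
      · refine Fin.cases ?_ (fun j => ?_) j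
        · intro h; exact absurd rfl h
        · intro _
          simp only [Fin.cons_zero, Fin.cons_succ]
          exact hsymm _ _ (hz3 j)
      · refine Fin.cases ?_ (fun j => ?_) j
        · intro _
          simp only [Fin.cons_zero, Fin.cons_succ]
          exact hz3 i
        · intro h
          simp only [Fin.cons_succ]
          exact hw2 i j (fun h' => h (by rw [h']))

/-- Few tuples have two close members at given positions. -/
theorem sclose_pair {d B t : ℕ}
    (hB : (univ.filter fun y : X n => hammingDist y (fun _ => false) < d).card ≤ B)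
    (U : Finset (X n)) {i j : Fin t} (hij : i ≠ j) :
    ((Fintype.piFinset fun _ : Fin t => U).filter
      fun τ => hammingDist (τ i) (τ j) < d).card ≤ U.card ^ (t - 1) * B := by
  classical
  have h1 : ((Fintype.piFinset fun _ : Fin t => U).filter
      fun τ => hammingDist (τ i) (τ j) < d).card ≤
      (Fintype.piFinset fun l : Fin t => if l = j then
        (univ.filter fun y : X n => hammingDist y (fun _ => false) < d) else U).card := by
    apply Finset.card_le_card_of_injOn
      (fun τ : Fin t → X n => (Function.update τ j (xr (τ i) (τ j)) : Fin t → X n))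
    · intro τ hτ
      simp only [coe_filter, Fintype.mem_piFinset, Set.mem_ofPred_eq] at hτ
      rw [mem_coe, Fintype.mem_piFinset]
      intro l
      by_cases hl : l = j
      · subst hl
        simp only [Function.update_self, if_true, mem_filter, mem_univ, true_and]
        rw [dist_zero_xr]; exact hτ.2
      · simp only [Function.update_of_ne hl, if_neg hl]
        exact hτ.1 l
    · intro τ _ σ _ h
      have hne : ∀ l, l ≠ j → τ l = σ l := by
        intro l hl
        have := congrFun h l
        simpa [Function.update_of_ne hl] using this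
      funext l
      by_cases hl : l = j
      · subst hl
        have h2 := congrFun h l
        simp only [Function.update_self] at h2
        have h3 := hne i hij
        rw [h3] at h2
        exact xr_inj_left h2
      · exact hne l hl
  refine h1.trans ?_
  rw [Fintype.card_piFinset, ← Finset.mul_prod_erase univ _ (mem_univ j)]
  rw [if_pos rfl, mul_comm]
  refine Nat.mul_le_mul ?_ hB
  rw [Finset.prod_congr rfl (g := fun _ => U.card)]
  · simp [Finset.card_erase_of_mem]
  · intro l hl
    rw [if_neg (Finset.ne_of_mem_erase hl)]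

/-- Few tuples have two close members. -/
theorem sclose_tuples {d B t : ℕ}
    (hB : (univ.filter fun y : X n => hammingDist y (fun _ => false) < d).card ≤ B)
    (U : Finset (X n)) :
    2 * ((Fintype.piFinset fun _ : Fin t => U).filter
      fun τ => ¬ ∀ i j, i ≠ j → d ≤ hammingDist (τ i) (τ j)).card ≤
      t ^ 2 * (U.card ^ (t - 1) * B) := by
  classical
  set E : Finset (Fin t × Fin t) := univ.filter fun p => p.1 < p.2 with hE
  have hE2 : 2 * E.card ≤ t ^ 2 := by
    have h1 : (E.map (Equiv.prodComm (Fin t) (Fin t)).toEmbedding).card = E.card := card_map _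
    have h2 : Disjoint E (E.map (Equiv.prodComm (Fin t) (Fin t)).toEmbedding) := by
      rw [Finset.disjoint_left]
      rintro ⟨a, b⟩ h3 h4
      rw [mem_map] at h4
      obtain ⟨⟨c, e⟩, h5, h6⟩ := h4
      simp only [hE, mem_filter, mem_univ, true_and] at h3 h5
      simp only [Equiv.coe_toEmbedding, Equiv.prodComm_apply, Prod.swap_prod_mk,
        Prod.mk.injEq] at h6
      obtain ⟨rfl, rfl⟩ := h6
      exact absurd h3 (not_lt.mpr h5.le)
    have h3 := Finset.card_le_univ (E ∪ E.map (Equiv.prodComm (Fin t) (Fin t)).toEmbedding)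
    rw [card_union_of_disjoint h2, h1, Fintype.card_prod, Fintype.card_fin] at h3
    nlinarith
  have h1 : ((Fintype.piFinset fun _ : Fin t => U).filter
      fun τ => ¬ ∀ i j, i ≠ j → d ≤ hammingDist (τ i) (τ j)) ⊆
      E.biUnion (fun p => (Fintype.piFinset fun _ : Fin t => U).filter
        fun τ => hammingDist (τ p.1) (τ p.2) < d) := by
    intro τ hτ
    rw [mem_filter] at hτ
    obtain ⟨h2, h3⟩ := hτ
    push Not at h3
    obtain ⟨i, j, hij, h4⟩ := h3
    rw [mem_biUnion]
    rcases lt_or_gt_of_ne hij with h | h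
    · exact ⟨(i, j), by simp [hE, h], by rw [mem_filter]; exact ⟨h2, h4⟩⟩
    · exact ⟨(j, i), by simp [hE, h], by rw [mem_filter, hammingDist_comm]; exact ⟨h2, h4⟩⟩
  have h2 := (Finset.card_le_card h1).trans card_biUnion_le
  have h3 : ∑ p ∈ E, ((Fintype.piFinset fun _ : Fin t => U).filter
        fun τ => hammingDist (τ p.1) (τ p.2) < d).card ≤ E.card * (U.card ^ (t - 1) * B) := by
    refine (Finset.sum_le_card_nsmul _ _ _ (fun p hp => ?_)).trans (le_of_eq (smul_eq_mul _ _))
    exact sclose_pair hB U (ne_of_lt (mem_filter.mp hp).2)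
  calc 2 * _ ≤ 2 * (E.card * (U.card ^ (t - 1) * B)) := Nat.mul_le_mul_left _ (h2.trans h3)
    _ = (2 * E.card) * (U.card ^ (t - 1) * B) := by ring
    _ ≤ _ := Nat.mul_le_mul_right _ hE2

theorem num1 (s : ℕ) : s * (s + 1) ^ 2 ≤ (s + 1) ^ 3 := by
  have : (s + 1) ^ 3 = (s + 1) * (s + 1) ^ 2 := by ring
  rw [this]
  exact Nat.mul_le_mul_right _ (by omega)

theorem num2 (s : ℕ) : (s + 1) ^ 2 ≤ 2 * (s + 1) ^ 3 := by
  have : 2 * (s + 1) ^ 3 = (2 * (s + 1)) * (s + 1) ^ 2 := by ring
  rw [this]
  exact Nat.le_mul_of_pos_left _ (by omega)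

/-- Kővári–Sós–Turán: a far tuple in `U` with a large common neighbourhood. -/
theorem far_tuple {A : Finset (X n)} {s d r B : ℕ}
    (hB : (univ.filter fun y : X n => hammingDist y (fun _ => false) < d).card ≤ B)
    (U V : Finset (X n))
    (hU : (s + 1) ^ 2 * B * 2 ^ (r * (s + 1)) ≤ U.card)
    (hcon : U.card * V.card < 2 ^ r * ((U ×ˢ V).filter fun p => xr p.1 p.2 ∈ A).card) :
    ∃ τ : Fin (s + 1) → X n, (∀ i, τ i ∈ U) ∧
      (∀ i j, i ≠ j → d ≤ hammingDist (τ i) (τ j)) ∧
      V.card < 2 * 2 ^ (r * (s + 1)) * (V.filter fun v => ∀ i, xr (τ i) v ∈ A).card := by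
  classical
  set e := ((U ×ˢ V).filter fun p => xr p.1 p.2 ∈ A).card with he
  set deg : X n → ℕ := fun v => (U.filter fun u => xr u v ∈ A).card with hdeg
  have he2 : e = ∑ v ∈ V, deg v := by
    rw [he, Finset.card_filter, Finset.sum_product_right]
    apply Finset.sum_congr rfl
    intro v _
    rw [hdeg]; simp only
    rw [Finset.card_filter]
  have hpow : e ^ (s + 1) ≤ V.card ^ s * ∑ v ∈ V, deg v ^ (s + 1) := by
    rw [he2]
    have hps := pow_sum_le_card_mul_sum_pow (s := V) (f := deg) (fun _ _ => Nat.zero_le _) s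
    rw [Nat.cast_id] at hps
    exact hps
  -- double counting
  set T := Fintype.piFinset (fun _ : Fin (s + 1) => U) with hT
  set Nb : (Fin (s + 1) → X n) → Finset (X n) := fun τ => V.filter fun v => ∀ i, xr (τ i) v ∈ A
    with hNb
  have hdc : ∑ v ∈ V, deg v ^ (s + 1) = ∑ τ ∈ T, (Nb τ).card := by
    have h1 : ∀ v ∈ V, deg v ^ (s + 1) =
        (T.filter fun τ => ∀ i, xr (τ i) v ∈ A).card := by
      intro v _
      have h2 : (T.filter fun τ => ∀ i, xr (τ i) v ∈ A) =
          Fintype.piFinset (fun _ : Fin (s + 1) => U.filter fun u => xr u v ∈ A) := by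
        ext τ
        simp only [hT, mem_filter, Fintype.mem_piFinset]
        constructor
        · rintro ⟨h3, h4⟩ i
          exact ⟨h3 i, h4 i⟩
        · intro h
          exact ⟨fun i => (h i).1, fun i => (h i).2⟩
      rw [h2, Fintype.card_piFinset]
      simp [hdeg]
    rw [Finset.sum_congr rfl h1]
    simp only [hNb, Finset.card_filter]
    exact Finset.sum_comm
  have hstep2 : U.card ^ (s + 1) * V.card < 2 ^ (r * (s + 1)) * ∑ τ ∈ T, (Nb τ).card := by
    have h1 : (U.card * V.card) ^ (s + 1) < (2 ^ r * e) ^ (s + 1) :=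
      Nat.pow_lt_pow_left hcon (by omega)
    rw [mul_pow, mul_pow, ← pow_mul] at h1
    have h2 : U.card ^ (s + 1) * V.card ^ (s + 1) <
        2 ^ (r * (s + 1)) * (V.card ^ s * ∑ v ∈ V, deg v ^ (s + 1)) :=
      lt_of_lt_of_le h1 (Nat.mul_le_mul_left _ hpow)
    rw [hdc] at h2
    have h3 : V.card ^ s * (U.card ^ (s + 1) * V.card) <
        V.card ^ s * (2 ^ (r * (s + 1)) * ∑ τ ∈ T, (Nb τ).card) := by
      calc V.card ^ s * (U.card ^ (s + 1) * V.card) = U.card ^ (s + 1) * V.card ^ (s + 1) := by ring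
        _ < _ := h2
        _ = _ := by ring
    exact Nat.lt_of_mul_lt_mul_left h3
  -- far tuples
  set Far : (Fin (s + 1) → X n) → Prop := fun τ => ∀ i j, i ≠ j → d ≤ hammingDist (τ i) (τ j)
    with hFar
  have hsplit : ∑ τ ∈ T, (Nb τ).card = ∑ τ ∈ T.filter Far, (Nb τ).card +
      ∑ τ ∈ T.filter (fun τ => ¬ Far τ), (Nb τ).card :=
    (Finset.sum_filter_add_sum_filter_not T Far _).symm
  have hnonfar : ∑ τ ∈ T.filter (fun τ => ¬ Far τ), (Nb τ).card ≤
      (T.filter (fun τ => ¬ Far τ)).card * V.card := by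
    refine (Finset.sum_le_card_nsmul _ _ V.card (fun τ _ => card_filter_le _ _)).trans
      (le_of_eq (smul_eq_mul _ _))
  have hct := sclose_tuples (t := s + 1) hB U
  rw [Nat.add_sub_cancel] at hct
  have hnf2 : 2 * (2 ^ (r * (s + 1)) * ∑ τ ∈ T.filter (fun τ => ¬ Far τ), (Nb τ).card) ≤
      U.card ^ (s + 1) * V.card := by
    calc 2 * (2 ^ (r * (s + 1)) * ∑ τ ∈ T.filter (fun τ => ¬ Far τ), (Nb τ).card)
        ≤ 2 * (2 ^ (r * (s + 1)) * ((T.filter (fun τ => ¬ Far τ)).card * V.card)) := by gcongr
      _ = 2 ^ (r * (s + 1)) * (2 * (T.filter (fun τ => ¬ Far τ)).card) * V.card := by ring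
      _ ≤ 2 ^ (r * (s + 1)) * ((s + 1) ^ 2 * (U.card ^ s * B)) * V.card := by gcongr
      _ = ((s + 1) ^ 2 * B * 2 ^ (r * (s + 1))) * U.card ^ s * V.card := by ring
      _ ≤ U.card * U.card ^ s * V.card := by gcongr
      _ = U.card ^ (s + 1) * V.card := by ring
  have hfar : U.card ^ (s + 1) * V.card <
      2 * 2 ^ (r * (s + 1)) * ∑ τ ∈ T.filter Far, (Nb τ).card := by
    rw [hsplit, mul_add] at hstep2
    have : 2 * (U.card ^ (s + 1) * V.card) < 2 * (2 ^ (r * (s + 1)) *
        ∑ τ ∈ T.filter Far, (Nb τ).card) + U.card ^ (s + 1) * V.card := by omega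
    rw [mul_assoc]; omega
  -- a far tuple with many common neighbours
  have hex : ∃ τ ∈ T.filter Far, V.card < 2 * 2 ^ (r * (s + 1)) * (Nb τ).card := by
    by_contra hno
    push Not at hno
    have h1 : 2 * 2 ^ (r * (s + 1)) * ∑ τ ∈ T.filter Far, (Nb τ).card ≤
        (T.filter Far).card * V.card := by
      rw [Finset.mul_sum]
      exact (Finset.sum_le_card_nsmul _ _ V.card hno).trans (le_of_eq (smul_eq_mul _ _))
    have h2 : (T.filter Far).card ≤ U.card ^ (s + 1) := by
      refine (card_filter_le _ _).trans ?_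
      rw [hT, Fintype.card_piFinset]; simp
    have h3 := Nat.mul_le_mul_right V.card h2
    omega
  obtain ⟨τ, hτ, hτV⟩ := hex
  rw [mem_filter] at hτ
  obtain ⟨hτT, hτF⟩ := hτ
  rw [hT, Fintype.mem_piFinset] at hτT
  exact ⟨τ, hτT, hτF, hτV⟩

/-- Kővári–Sós–Turán for sumsets. -/
theorem sumCorr_of_sgridFree {A : Finset (X n)} {t d r B K : ℕ}
    (hA : SGridFree A t d)
    (hB : (univ.filter fun y : X n => hammingDist y (fun _ => false) < d).card ≤ B)
    (hK : 2 * t ^ 3 * B * 2 ^ (r * t) ≤ K) : SumCorr A K (2 ^ r - 1) := by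
  classical
  intro U V hUK hVK
  set e := ((U ×ˢ V).filter fun p => xr p.1 p.2 ∈ A).card with he
  have hsum : e + ((U ×ˢ V).filter fun p => xr p.1 p.2 ∉ A).card = U.card * V.card := by
    rw [he, ← Finset.card_product]
    exact Finset.card_filter_add_card_filter_not _
  suffices hmain : 2 ^ r * e ≤ U.card * V.card by
    have h1 : (2 ^ r - 1) * e = 2 ^ r * e - e := by rw [Nat.sub_mul, one_mul]
    rw [h1]; omega
  by_contra hcon
  push Not at hcon
  -- t ≥ 1
  have ht : 1 ≤ t := by
    by_contra h0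
    have h0' : t = 0 := by omega
    subst h0'
    obtain ⟨p, _⟩ := hA (fun i => i.elim0) (fun i => i.elim0) (fun p => p.1.elim0)
    exact p.1.elim0
  obtain ⟨s, rfl⟩ : ∃ s, t = s + 1 := ⟨t - 1, by omega⟩
  have hUbig : (s + 1) ^ 2 * B * 2 ^ (r * (s + 1)) ≤ U.card := by
    calc (s + 1) ^ 2 * B * 2 ^ (r * (s + 1)) ≤ 2 * (s + 1) ^ 3 * B * 2 ^ (r * (s + 1)) :=
          Nat.mul_le_mul_right _ (Nat.mul_le_mul_right _ (num2 s))
      _ ≤ K := hK
      _ ≤ U.card := hUK.le
  obtain ⟨τ, hτU, hτF, hτV⟩ := far_tuple hB U V hUbig hcon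
  set N := V.filter fun v => ∀ i, xr (τ i) v ∈ A with hN
  have hNcard : (s + 1 - 1) * ((s + 1) ^ 2 * B) < N.card := by
    rw [Nat.add_sub_cancel]
    by_contra hle
    push Not at hle
    have h1 : V.card < 2 * 2 ^ (r * (s + 1)) * (s * ((s + 1) ^ 2 * B)) :=
      lt_of_lt_of_le hτV (Nat.mul_le_mul_left _ hle)
    have h2 : 2 * 2 ^ (r * (s + 1)) * (s * ((s + 1) ^ 2 * B)) ≤
        2 * (s + 1) ^ 3 * B * 2 ^ (r * (s + 1)) := by
      calc 2 * 2 ^ (r * (s + 1)) * (s * ((s + 1) ^ 2 * B))
          = (s * (s + 1) ^ 2) * (2 * B * 2 ^ (r * (s + 1))) := by ring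
        _ ≤ (s + 1) ^ 3 * (2 * B * 2 ^ (r * (s + 1))) := Nat.mul_le_mul_right _ (num1 s)
        _ = 2 * (s + 1) ^ 3 * B * 2 ^ (r * (s + 1)) := by ring
    have h3 := lt_of_lt_of_le h1 h2
    have h4 := lt_of_lt_of_le h3 hK
    exact lt_asymm h4 hVK
  obtain ⟨w, hw1, hw2⟩ := sgreedy (t := s + 1)
    (fun a b : X n => ∀ i i' : Fin (s + 1), d ≤ hammingDist (xr (τ i) a) (xr (τ i') b))
    (fun a b h i i' => by rw [hammingDist_comm]; exact h i' i) (D := (s + 1) ^ 2 * B) (by
      intro a
      have h1 : (univ.filter fun z : X n => ¬ ∀ i i' : Fin (s + 1),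
          d ≤ hammingDist (xr (τ i) a) (xr (τ i') z)) ⊆
          (univ : Finset (Fin (s + 1) × Fin (s + 1))).biUnion
            (fun p => univ.filter fun z : X n =>
              hammingDist (xr (xr (τ p.1) a) (τ p.2)) z < d) := by
        intro z hz
        simp only [mem_filter, mem_univ, true_and] at hz
        push Not at hz
        obtain ⟨i, i', h⟩ := hz
        rw [mem_biUnion]
        refine ⟨(i, i'), mem_univ _, ?_⟩
        simp only [mem_filter, mem_univ, true_and]
        rw [← dist_xr]; exact h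
      refine (card_le_card h1).trans (card_biUnion_le.trans ?_)
      refine (Finset.sum_le_card_nsmul _ _ B (fun p _ => sball_translate hB _)).trans ?_
      simp [sq]) N (s + 1) le_rfl hNcard
  obtain ⟨p, hp⟩ := hA τ w (by
    rintro ⟨i, j⟩ ⟨i', j'⟩ hne
    simp only
    by_cases hj : j = j'
    · subst hj
      rw [dist_xr_xr]
      exact hτF i i' (fun h => hne (by rw [h]))
    · exact hw2 j j' hj i i')
  exact hp ((mem_filter.mp (hw1 p.2)).2 p.1)

/-- Rectangles are sumsets. -/
theorem corr_of_sumCorr {A : Finset (X n)} {K N : ℕ} (hA : SumCorr A K N) : Corr A K N := by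
  classical
  intro P U V hU hV hUK hVK
  have hmP : ∀ u ∈ U, ∀ v ∈ V, mask P (xr u v) = u := by
    intro u hu v hv
    have h1 := mask_fixed_iff.mp (hU u hu)
    have h2 := mask_fixed_iff.mp (hV v hv)
    funext i
    by_cases hi : i ∈ P
    · rw [mask_apply_of_mem hi]
      simp [xr, h2 i (by simp [hi])]
    · rw [mask_apply_of_not_mem hi, h1 i hi]
  have hmPc : ∀ u ∈ U, ∀ v ∈ V, mask Pᶜ (xr u v) = v := by
    intro u hu v hv
    have h1 := mask_fixed_iff.mp (hU u hu)
    have h2 := mask_fixed_iff.mp (hV v hv)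
    funext i
    by_cases hi : i ∈ Pᶜ
    · rw [mask_apply_of_mem hi]
      simp [xr, h1 i (by simpa using hi)]
    · rw [mask_apply_of_not_mem hi, h2 i hi]
  have hjoin : ∀ x : X n, xr (mask P x) (mask Pᶜ x) = x := by
    intro x
    funext i
    by_cases hi : i ∈ P
    · simp [xr, mask, hi]
    · simp [xr, mask, hi]
  have hcard : ∀ (Q : X n → Prop) [DecidablePred Q],
      (univ.filter fun x : X n => (mask P x ∈ U ∧ mask Pᶜ x ∈ V) ∧ Q x).card =
        ((U ×ˢ V).filter fun p => Q (xr p.1 p.2)).card := by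
    intro Q _
    apply Finset.card_nbij' (fun x => (mask P x, mask Pᶜ x)) (fun p => xr p.1 p.2)
    · intro x hx
      simp only [coe_filter, mem_univ, true_and, Set.mem_ofPred_eq, mem_product] at hx ⊢
      rw [hjoin]; exact hx
    · intro p hp
      simp only [coe_filter, mem_univ, true_and, Set.mem_ofPred_eq, mem_product] at hp ⊢
      rw [hmP _ hp.1.1 _ hp.1.2, hmPc _ hp.1.1 _ hp.1.2]
      exact hp
    · intro x _
      exact hjoin x
    · intro p hp
      simp only [coe_filter, Set.mem_ofPred_eq, mem_product] at hp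
      simp only [hmP _ hp.1.1 _ hp.1.2, hmPc _ hp.1.1 _ hp.1.2]
  rw [hcard (fun x => x ∈ A), hcard (fun x => x ∉ A)]
  exact hA U V hUK hVK

end Pool.Agent.Helper83.SETH
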